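import Mathlib

/-!
# KSH-Abs: split Clifford relations in an algebra

`ι : V → C` with `ι x ι y + ι y ι x = B x y`, `V = W + W' + N`, `W`, `W'` isotropic with dual bases `e`, `f`,
`N` orthogonal to both.
-/

namespace Pool.Agent.KSH

variable {V C : Type*} [AddCommGroup V] [Module ℂ V] [Ring C] [Algebra ℂ C] {m : ℕ}

/-- the product of a list of vectors -/
def wd (ι : V →ₗ[ℂ] C) (l : List V) : C := (l.map ι).prod

/-- the split situation -/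
structure Spl (ι : V →ₗ[ℂ] C) (rev : C →ₗ[ℂ] C) (B : V → V → ℂ) (W W' N : Submodule ℂ V)
    (e f : Fin m → V) : Prop where
  cl : ∀ x y, ι x * ι y + ι y * ι x = algebraMap ℂ C (B x y)
  symm : ∀ x y, B x y = B y x
  rev_ι : ∀ x, rev (ι x) = ι x
  rev_mul : ∀ x y, rev (x * y) = rev y * rev x
  rev_rev : ∀ x, rev (rev x) = x
  rev_one : rev 1 = 1
  gen : Algebra.adjoin ℂ (Set.range ι) = ⊤
  top : ∀ v : V, ∃ x ∈ W, ∃ y ∈ W', ∃ n ∈ N, v = x + y + n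
  ww : ∀ x ∈ W, ∀ y ∈ W, B x y = 0
  w'w' : ∀ x ∈ W', ∀ y ∈ W', B x y = 0
  wn : ∀ x ∈ W, ∀ y ∈ N, B x y = 0
  w'n : ∀ x ∈ W', ∀ y ∈ N, B x y = 0
  he : ∀ i, e i ∈ W
  hf : ∀ i, f i ∈ W'
  dual : ∀ i k, B (e i) (f k) = if i = k then 1 else 0
  span_e : ∀ x ∈ W, x = ∑ i, B (f i) x • e i
  span_f : ∀ x ∈ W', x = ∑ i, B (e i) x • f i

/-- `f_1 ⋯ f_m` -/
def eta (ι : V →ₗ[ℂ] C) (f : Fin m → V) : C := wd ι (List.ofFn f)

end Pool.Agent.KSH
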