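import Pool.Agent.KSH.Defs
import Pool.Agent.KSH.Abs
import Pool.Agent.PQK.KSLin

/-!
# KSH-Cl: elementary facts on the complexified Clifford algebra

`vecL`: `vecC Q` as a linear map (`linL (gen Q)`). `cl`: bilinearity and `CliffordAlgebra.ι_mul_ι_add_swap` on the
rational basis (`Q` symmetric). `gen`: `CliffordAlgebra.adjoin_range_ι`. `rev`: `CliffordAlgebra.reverse.map_mul`,
`reverse_ι`, `reverse_reverse`, by induction on pure tensors. `even`: a product of an even number of vectors is in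
`evenC` (`CliffordAlgebra.even`), `evenC` is closed under products, and `c v` is in `evenC` for `c` a product of an odd
number of vectors. `even_mul` : a map `b` with `b (x c) = (b x) c` for rational even `c` satisfies it for all `c` in `evenC`,
so `b x = b 1 * x`.
-/

namespace Pool.Agent.KSH

open Matrix PQK Module TensorProduct Pool.Agent.E3H

variable {N : ℕ}

/-- `vecC Q` as a linear map -/
noncomputable def vecL (Q : Matrix (Fin N) (Fin N) ℚ) : (Fin N → ℂ) →ₗ[ℂ] CliffC Q := linL (gen Q)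

theorem vecL_apply (Q : Matrix (Fin N) (Fin N) ℚ) (x : Fin N → ℂ) : vecL Q x = vecC Q x := rfl

private theorem Cl_single (Q : Matrix (Fin N) (Fin N) ℚ) (a : Fin N) :
    vecL Q (Pi.single a 1) = (1 : ℂ) ⊗ₜ[ℚ] gen Q (Pi.single a 1) := by
  have h : (Pi.single a 1 : Fin N → ℂ) = vR (Pi.single a 1) := by
    ext b
    simp only [vR, Pi.single_apply]
    split_ifs <;> simp
  rw [h]
  exact lin_rat (gen Q) (Pi.single a 1)

private theorem Cl_vec (Q : Matrix (Fin N) (Fin N) ℚ) (x : Fin N → ℂ) :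
    vecL Q x = ∑ a, x a • ((1 : ℂ) ⊗ₜ[ℚ] gen Q (Pi.single a 1)) := by
  conv_lhs => rw [sum_single x, map_sum]
  refine Finset.sum_congr rfl fun a _ => ?_
  rw [map_smul, Cl_single]

private theorem Cl_polar {Q : Matrix (Fin N) (Fin N) ℚ} (hQ : Qᵀ = Q) (a b : Fin N) :
    gen Q (Pi.single a 1) * gen Q (Pi.single b 1) + gen Q (Pi.single b 1) * gen Q (Pi.single a 1) =
      algebraMap ℚ (Cliff Q) (2 * Q a b) := by
  unfold gen
  rw [CliffordAlgebra.ι_mul_ι_add_swap]
  congr 1
  have h1 : ∀ z : Fin N → ℚ, qf Q z = z ⬝ᵥ (Q *ᵥ z) := by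
    intro z
    simp [qf, Matrix.toQuadraticForm', Matrix.toLinearMap₂'_apply']
  have h2 : Q b a = Q a b := by
    conv_rhs => rw [← hQ]
    rfl
  rw [QuadraticMap.polar, h1, h1, h1]
  simp only [Matrix.mulVec_add, dotProduct_add, add_dotProduct]
  simp only [Matrix.mulVec_single_one, single_one_dotProduct, Matrix.col_apply]
  rw [h2]
  ring

private theorem Cl_alg (Q : Matrix (Fin N) (Fin N) ℚ) (q : ℚ) :
    ((1 : ℂ) ⊗ₜ[ℚ] (algebraMap ℚ (Cliff Q) q) : CliffC Q) = algebraMap ℂ (CliffC Q) (q : ℂ) := by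
  rw [Algebra.algebraMap_eq_smul_one, TensorProduct.tmul_smul, TensorProduct.smul_tmul',
    Algebra.TensorProduct.algebraMap_apply, Algebra.smul_def, mul_one]
  simp

theorem cl_rel {Q : Matrix (Fin N) (Fin N) ℚ} (hQ : Qᵀ = Q) (x y : Fin N → ℂ) :
    vecL Q x * vecL Q y + vecL Q y * vecL Q x = algebraMap ℂ (CliffC Q) (2 * qC Q x y) := by
  have h1 : vecL Q x * vecL Q y = ∑ a, ∑ b, (x a * y b) • ((1 : ℂ) ⊗ₜ[ℚ]
      (gen Q (Pi.single a 1) * gen Q (Pi.single b 1))) := by
    rw [Cl_vec Q x, Cl_vec Q y, Finset.sum_mul]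
    refine Finset.sum_congr rfl fun a _ => ?_
    rw [Finset.mul_sum]
    refine Finset.sum_congr rfl fun b _ => ?_
    rw [smul_mul_assoc, mul_smul_comm, smul_smul, Algebra.TensorProduct.tmul_mul_tmul, one_mul]
  have h2 : vecL Q y * vecL Q x = ∑ a, ∑ b, (x a * y b) • ((1 : ℂ) ⊗ₜ[ℚ]
      (gen Q (Pi.single b 1) * gen Q (Pi.single a 1))) := by
    rw [Finset.sum_comm, Cl_vec Q x, Cl_vec Q y, Finset.sum_mul]
    refine Finset.sum_congr rfl fun b _ => ?_
    rw [Finset.mul_sum]
    refine Finset.sum_congr rfl fun a _ => ?_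
    rw [smul_mul_assoc, mul_smul_comm, smul_smul, Algebra.TensorProduct.tmul_mul_tmul, one_mul,
      mul_comm (y b)]
  have h3 : ∀ q : ℚ, ((1 : ℂ) ⊗ₜ[ℚ] (algebraMap ℚ (Cliff Q) q) : CliffC Q) =
      algebraMap ℂ (CliffC Q) (q : ℂ) := Cl_alg Q
  rw [h1, h2, ← Finset.sum_add_distrib, qC, dotProduct, Finset.mul_sum, map_sum]
  refine Finset.sum_congr rfl fun a _ => ?_
  rw [← Finset.sum_add_distrib, Matrix.mulVec, dotProduct, Finset.mul_sum, Finset.mul_sum, map_sum]
  refine Finset.sum_congr rfl fun b _ => ?_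
  rw [← smul_add, ← TensorProduct.tmul_add, Cl_polar hQ, h3, Algebra.smul_def, ← map_mul]
  congr 1
  simp only [toC, Matrix.map_apply]
  push_cast
  ring

theorem rev_vecL (Q : Matrix (Fin N) (Fin N) ℚ) (x : Fin N → ℂ) : revC Q (vecL Q x) = vecL Q x := by
  rw [Cl_vec, map_sum]
  refine Finset.sum_congr rfl fun a _ => ?_
  rw [map_smul, revC, LinearMap.baseChange_tmul, gen, CliffordAlgebra.reverse_ι]

theorem rev_mulL (Q : Matrix (Fin N) (Fin N) ℚ) (x y : CliffC Q) :
    revC Q (x * y) = revC Q y * revC Q x := by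
  induction x using TensorProduct.induction_on with
  | zero => rw [zero_mul, map_zero, mul_zero]
  | add x x' hx hx' => rw [add_mul, map_add, hx, hx', map_add, mul_add]
  | tmul c x =>
    induction y using TensorProduct.induction_on with
    | zero => rw [mul_zero, map_zero, zero_mul]
    | add y y' hy hy' => rw [mul_add, map_add, hy, hy', map_add, add_mul]
    | tmul d y =>
      rw [Algebra.TensorProduct.tmul_mul_tmul, revC, LinearMap.baseChange_tmul,
        LinearMap.baseChange_tmul, LinearMap.baseChange_tmul, CliffordAlgebra.reverse.map_mul,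
        Algebra.TensorProduct.tmul_mul_tmul, mul_comm]

theorem rev_revL (Q : Matrix (Fin N) (Fin N) ℚ) (x : CliffC Q) : revC Q (revC Q x) = x := by
  induction x using TensorProduct.induction_on with
  | zero => rw [map_zero, map_zero]
  | add x x' hx hx' => rw [map_add, map_add, hx, hx']
  | tmul c x =>
    rw [revC, LinearMap.baseChange_tmul, LinearMap.baseChange_tmul,
      CliffordAlgebra.reverse_reverse]

theorem rev_oneL (Q : Matrix (Fin N) (Fin N) ℚ) : revC Q 1 = 1 := by
  rw [Algebra.TensorProduct.one_def, revC, LinearMap.baseChange_tmul,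
    CliffordAlgebra.reverse.map_one]

theorem gen_vecL (Q : Matrix (Fin N) (Fin N) ℚ) :
    Algebra.adjoin ℂ (Set.range (vecL Q)) = ⊤ := by
  rw [eq_top_iff]
  intro x hx0
  clear hx0
  induction x using TensorProduct.induction_on with
  | zero => exact zero_mem _
  | add x y hx hy => exact add_mem hx hy
  | tmul c x =>
    have h1 : (c ⊗ₜ[ℚ] x : CliffC Q) = c • ((1 : ℂ) ⊗ₜ[ℚ] x) := by
      rw [TensorProduct.smul_tmul', smul_eq_mul, mul_one]
    rw [h1]
    apply Subalgebra.smul_mem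
    clear h1
    induction x using CliffordAlgebra.induction with
    | algebraMap r =>
      rw [Cl_alg]
      exact Subalgebra.algebraMap_mem _ _
    | ι v =>
      have h2 : ((1 : ℂ) ⊗ₜ[ℚ] (CliffordAlgebra.ι (qf Q) v) : CliffC Q) = vecL Q (vR v) :=
        (lin_rat (gen Q) v).symm
      rw [h2]
      exact Algebra.subset_adjoin ⟨_, rfl⟩
    | mul a b ha hb =>
      have h2 : ((1 : ℂ) ⊗ₜ[ℚ] (a * b) : CliffC Q) = ((1 : ℂ) ⊗ₜ[ℚ] a) * ((1 : ℂ) ⊗ₜ[ℚ] b) := by
        rw [Algebra.TensorProduct.tmul_mul_tmul, one_mul]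
      rw [h2]
      exact mul_mem ha hb
    | add a b ha hb =>
      rw [TensorProduct.tmul_add]
      exact add_mem ha hb

theorem evenC_one (Q : Matrix (Fin N) (Fin N) ℚ) : (1 : CliffC Q) ∈ evenC Q :=
  Submodule.subset_span ⟨1, (CliffordAlgebra.even (qf Q)).one_mem, rfl⟩

theorem evenC_mul {Q : Matrix (Fin N) (Fin N) ℚ} {x y : CliffC Q} (hx : x ∈ evenC Q) (hy : y ∈ evenC Q) :
    x * y ∈ evenC Q := by
  unfold evenC at hx
  induction hx using Submodule.span_induction with
  | zero => rw [zero_mul]; exact Submodule.zero_mem _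
  | add a b _ _ ha hb => rw [add_mul]; exact Submodule.add_mem _ ha hb
  | smul c a _ ha => rw [smul_mul_assoc]; exact Submodule.smul_mem _ _ ha
  | mem a ha =>
    obtain ⟨a, ha, rfl⟩ := ha
    unfold evenC at hy
    induction hy using Submodule.span_induction with
    | zero => rw [mul_zero]; exact Submodule.zero_mem _
    | add a b _ _ ha hb => rw [mul_add]; exact Submodule.add_mem _ ha hb
    | smul c a _ ha => rw [mul_smul_comm]; exact Submodule.smul_mem _ _ ha
    | mem b hb =>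
      obtain ⟨b, hb, rfl⟩ := hb
      rw [Algebra.TensorProduct.tmul_mul_tmul, one_mul]
      exact Submodule.subset_span ⟨a * b, (CliffordAlgebra.even (qf Q)).mul_mem ha hb, rfl⟩

theorem evenC_two {Q : Matrix (Fin N) (Fin N) ℚ} (x y : Fin N → ℂ) : vecL Q x * vecL Q y ∈ evenC Q := by
  rw [Cl_vec Q x, Cl_vec Q y, Finset.sum_mul]
  refine Submodule.sum_mem _ fun a _ => ?_
  rw [Finset.mul_sum]
  refine Submodule.sum_mem _ fun b _ => ?_
  rw [smul_mul_assoc, mul_smul_comm, Algebra.TensorProduct.tmul_mul_tmul, one_mul]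
  refine Submodule.smul_mem _ _ (Submodule.smul_mem _ _ (Submodule.subset_span ⟨_, ?_, rfl⟩))
  exact CliffordAlgebra.ι_mul_ι_mem_evenOdd_zero _ _ _

theorem evenC_wd {Q : Matrix (Fin N) (Fin N) ℚ} (l : List (Fin N → ℂ)) (hl : l.length % 2 = 0) :
    wd (vecL Q) l ∈ evenC Q := by
  induction l using List.twoStepInduction with
  | nil => exact evenC_one Q
  | singleton x => simp at hl
  | cons_cons x y l ih _ =>
    have h1 : wd (vecL Q) (x :: y :: l) = vecL Q x * vecL Q y * wd (vecL Q) l := by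
      simp [wd, mul_assoc]
    rw [h1]
    refine evenC_mul (evenC_two x y) (ih ?_)
    simp only [List.length_cons] at hl
    omega

/-- `v x v₀` is even if `x` is -/
theorem evenC_conj {Q : Matrix (Fin N) (Fin N) ℚ} {x : CliffC Q} (hx : x ∈ evenC Q) (v v₀ : Fin N → ℂ) :
    vecL Q v * x * vecL Q v₀ ∈ evenC Q := by
  unfold evenC at hx
  induction hx using Submodule.span_induction with
  | zero => rw [mul_zero, zero_mul]; exact Submodule.zero_mem _
  | add a b _ _ ha hb => rw [mul_add, add_mul]; exact Submodule.add_mem _ ha hb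
  | smul c a _ ha => rw [mul_smul_comm, smul_mul_assoc]; exact Submodule.smul_mem _ _ ha
  | mem a ha =>
    obtain ⟨c, hc, rfl⟩ := ha
    rw [Cl_vec Q v, Cl_vec Q v₀, Finset.sum_mul, Finset.sum_mul]
    refine Submodule.sum_mem _ fun a _ => ?_
    rw [Finset.mul_sum]
    refine Submodule.sum_mem _ fun b _ => ?_
    rw [smul_mul_assoc, smul_mul_assoc, mul_smul_comm, Algebra.TensorProduct.tmul_mul_tmul,
      Algebra.TensorProduct.tmul_mul_tmul, one_mul, one_mul]
    refine Submodule.smul_mem _ _ (Submodule.smul_mem _ _ (Submodule.subset_span ⟨_, ?_, rfl⟩))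
    have h1 : gen Q (Pi.single a 1) ∈ CliffordAlgebra.evenOdd (qf Q) 1 :=
      CliffordAlgebra.ι_mem_evenOdd_one _ _
    have h2 : gen Q (Pi.single b 1) ∈ CliffordAlgebra.evenOdd (qf Q) 1 :=
      CliffordAlgebra.ι_mem_evenOdd_one _ _
    have h3 : c ∈ CliffordAlgebra.evenOdd (qf Q) 0 := hc
    have h4 := SetLike.mul_mem_graded (SetLike.mul_mem_graded h1 h3) h2
    have h5 : (1 : ZMod 2) + 0 + 1 = 0 := by decide
    rw [h5] at h4
    exact h4

/-- a map which commutes with the right multiplications is a left multiplication -/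
theorem left_of_right {Q : Matrix (Fin N) (Fin N) ℚ} {b : CliffC Q →ₗ[ℂ] CliffC Q}
    (hb : ∀ x ∈ evenC Q, ∀ c ∈ evenPart Q,
      b (mulC x ((1 : ℂ) ⊗ₜ[ℚ] c)) = mulC (b x) ((1 : ℂ) ⊗ₜ[ℚ] c)) {x : CliffC Q} (hx : x ∈ evenC Q) :
    b x = b 1 * x := by
  unfold evenC at hx
  induction hx using Submodule.span_induction with
  | zero => rw [map_zero, mul_zero]
  | add a b' _ _ ha hb' => rw [map_add, ha, hb', mul_add]
  | smul c a _ ha => rw [map_smul, ha, mul_smul_comm]
  | mem a ha =>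
    obtain ⟨c, hc, rfl⟩ := ha
    have h := hb 1 (evenC_one Q) c hc
    unfold mulC at h
    rwa [one_mul] at h

end Pool.Agent.KSH
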