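import Pool.Agent.KSH.Defs
import Pool.Agent.KSH.Abs
import Pool.Agent.KSH.Cl
import Pool.Agent.E3H.Main

/-!
# KSH-Base: the eigenspaces of `J`

`J` is an isometry of `T` (Zarhin, `J_iso`) and `J² + s J + 1 = 0` on `T`. So `T ⊗ ℂ = W + W'`
(eigenvalues `z ≠ z̄`, `z z̄ = 1`), `W`, `W'` isotropic and paired by `2 qC Q` nondegenerately, so both
have dimension `m`. `perpS` = the complex span of `{x : ∀ t ∈ T, xᵀ Q t = 0}`; `ℚ^N = T + T^⊥` as the form
of `T` is nondegenerate.
-/

namespace Pool.Agent.KSH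

open Matrix PQK Module TensorProduct Pool.Agent.E3H

variable {N : ℕ}

/-- the eigenspace of `J` in `T ⊗ ℂ` -/
noncomputable def eigS (T : Submodule ℚ (Fin N → ℚ)) (J : Matrix (Fin N) (Fin N) ℚ) (z : ℂ) :
    Submodule ℂ (Fin N → ℂ) where
  carrier := {x | IsEig T J z x}
  add_mem' := by
    rintro x y ⟨hx, hx'⟩ ⟨hy, hy'⟩
    refine ⟨(spanC T).add_mem hx hy, ?_⟩
    unfold appC at *
    rw [Matrix.mulVec_add, hx', hy', smul_add]
  zero_mem' := ⟨(spanC T).zero_mem, by unfold appC; rw [Matrix.mulVec_zero, smul_zero]⟩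
  smul_mem' := by
    rintro c x ⟨hx, hx'⟩
    refine ⟨(spanC T).smul_mem c hx, ?_⟩
    unfold appC at *
    rw [Matrix.mulVec_smul, hx', smul_comm]

/-- the complex span of the orthogonal complement of `T` -/
noncomputable def perpS (Q : Matrix (Fin N) (Fin N) ℚ) (T : Submodule ℚ (Fin N → ℚ)) :
    Submodule ℂ (Fin N → ℂ) :=
  Submodule.span ℂ {y | ∃ x : Fin N → ℚ, (∀ t ∈ T, x ⬝ᵥ (Q *ᵥ t) = 0) ∧ y = fun i => (x i : ℂ)}

private lemma base_dual {V : Type*} [AddCommGroup V] [Module ℂ V] [FiniteDimensional ℂ V]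
    (B : V →ₗ[ℂ] V →ₗ[ℂ] ℂ) (hs : ∀ x y, B x y = B y x) (W W' : Submodule ℂ V) {m : ℕ}
    (ww : ∀ x ∈ W, ∀ y ∈ W, B x y = 0) (w'w' : ∀ x ∈ W', ∀ y ∈ W', B x y = 0)
    (hnd : ∀ x ∈ W ⊔ W', (∀ y ∈ W ⊔ W', B x y = 0) → x = 0) (hdisj : W ⊓ W' = ⊥)
    (hdim : finrank ℂ (W ⊔ W' : Submodule ℂ V) = 2 * m) :
    ∃ e f : Fin m → V, (∀ i, e i ∈ W) ∧ (∀ i, f i ∈ W') ∧
      (∀ i k, B (e i) (f k) = if i = k then 1 else 0) ∧
      (∀ x ∈ W, x = ∑ i, B (f i) x • e i) ∧ (∀ x ∈ W', x = ∑ i, B (e i) x • f i) := by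
  let φ : W' →ₗ[ℂ] Dual ℂ W := (LinearMap.lcomp ℂ ℂ W.subtype) ∘ₗ (B ∘ₗ W'.subtype)
  have hφ : ∀ (y : W') (x : W), φ y x = B y x := fun y x => rfl
  let ψ : W →ₗ[ℂ] Dual ℂ W' := (LinearMap.lcomp ℂ ℂ W'.subtype) ∘ₗ (B ∘ₗ W.subtype)
  have hψ : ∀ (y : W) (x : W'), ψ y x = B y x := fun y x => rfl
  have hφi : Function.Injective φ := by
    rw [injective_iff_map_eq_zero]
    intro y hy
    apply Subtype.ext
    refine hnd y (Submodule.mem_sup_right y.2) ?_
    intro v hv
    obtain ⟨a, ha, c, hc, rfl⟩ := Submodule.mem_sup.1 hv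
    rw [map_add, w'w' _ y.2 _ hc, add_zero]
    have := hφ y ⟨a, ha⟩
    rw [hy] at this
    exact this.symm
  have hψi : Function.Injective ψ := by
    rw [injective_iff_map_eq_zero]
    intro y hy
    apply Subtype.ext
    refine hnd y (Submodule.mem_sup_left y.2) ?_
    intro v hv
    obtain ⟨a, ha, c, hc, rfl⟩ := Submodule.mem_sup.1 hv
    rw [map_add, ww _ y.2 _ ha, zero_add]
    have := hψ y ⟨c, hc⟩
    rw [hy] at this
    exact this.symm
  have h1 : finrank ℂ W' ≤ finrank ℂ W := by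
    have := LinearMap.finrank_le_finrank_of_injective hφi
    rwa [Subspace.dual_finrank_eq] at this
  have h2 : finrank ℂ W ≤ finrank ℂ W' := by
    have := LinearMap.finrank_le_finrank_of_injective hψi
    rwa [Subspace.dual_finrank_eq] at this
  have h3 := Submodule.finrank_sup_add_finrank_inf_eq W W'
  rw [hdisj, finrank_bot, hdim] at h3
  have h4 : finrank ℂ W = m := by omega
  have h5 : finrank ℂ W' = m := by omega
  let e := Module.finBasisOfFinrankEq ℂ W h4
  have hφs : Function.Surjective φ := by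
    have h6 : finrank ℂ W' = finrank ℂ (Dual ℂ W) := by rw [Subspace.dual_finrank_eq]; omega
    exact (LinearMap.injective_iff_surjective_of_finrank_eq_finrank h6).1 hφi
  choose f hf using fun k => hφs (e.coord k)
  have hdual : ∀ i k, B (e i : V) (f k : V) = if i = k then 1 else 0 := by
    intro i k
    rw [hs, ← hφ, hf, Basis.coord_apply, Basis.repr_self, Finsupp.single_apply]
  refine ⟨fun i => e i, fun i => f i, fun i => (e i).2, fun i => (f i).2, hdual, ?_, ?_⟩
  · intro x hx
    have h6 := e.sum_repr ⟨x, hx⟩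
    have h7 := congrArg (fun t : W => (t : V)) h6
    simp only [Submodule.coe_sum, Submodule.coe_smul] at h7
    have h8 : ∀ i, B (f i : V) x = e.repr ⟨x, hx⟩ i := by
      intro i
      have := hφ (f i) ⟨x, hx⟩
      rw [hf] at this
      exact this.symm
    simp only [h8]
    exact h7.symm
  · intro x hx
    have h6 : (⟨x, hx⟩ : W') = ∑ i, B (e i : V) x • f i := by
      apply hφi
      refine e.ext ?_
      intro i
      rw [hφ, map_sum, LinearMap.sum_apply]
      have h7 : ∀ k ∈ Finset.univ, (φ (B (e k : V) x • f k)) (e i) =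
          if k = i then B (e k : V) x else 0 := by
        intro k _
        rw [map_smul, LinearMap.smul_apply, hφ, hs (f k : V) (e i : V), hdual, smul_eq_mul]
        by_cases h : i = k
        · rw [if_pos h, if_pos h.symm, mul_one]
        · rw [if_neg h, if_neg (fun h' => h h'.symm), mul_zero]
      rw [Finset.sum_congr rfl h7, Finset.sum_ite_eq' Finset.univ i, if_pos (Finset.mem_univ i), hs]
    have h7 := congrArg (fun t : W' => (t : V)) h6
    simp only [Submodule.coe_sum, Submodule.coe_smul] at h7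
    exact h7

private theorem base_add (Q : Matrix (Fin N) (Fin N) ℚ) (x y v : Fin N → ℂ) :
    qC Q v (x + y) = qC Q v x + qC Q v y := by
  simp only [qC, Matrix.mulVec_add, dotProduct_add]

private theorem base_smul (Q : Matrix (Fin N) (Fin N) ℚ) (c : ℂ) (x v : Fin N → ℂ) :
    qC Q v (c • x) = c * qC Q v x := by
  simp only [qC, Matrix.mulVec_smul, dotProduct_smul, smul_eq_mul]

private theorem base_symm {Q : Matrix (Fin N) (Fin N) ℚ} (hQ : Qᵀ = Q) (a b : Fin N → ℂ) :
    qC Q a b = qC Q b a := by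
  unfold qC
  rw [Matrix.dotProduct_mulVec, dotProduct_comm, ← Matrix.mulVec_transpose, toC_transpose, hQ]

private theorem base_vR (Q : Matrix (Fin N) (Fin N) ℚ) (x y : Fin N → ℚ) :
    qC Q (vR x) (vR y) = ((x ⬝ᵥ (Q *ᵥ y) : ℚ) : ℂ) := by
  simp [qC, Matrix.mulVec, dotProduct, toC, vR]

/-- the form `2 qC Q` -/
private noncomputable def baseB (Q : Matrix (Fin N) (Fin N) ℚ) :
    (Fin N → ℂ) →ₗ[ℂ] (Fin N → ℂ) →ₗ[ℂ] ℂ :=
  LinearMap.mk₂ ℂ (fun x y => 2 * qC Q x y)
    (fun x x' y => by simp only [qC, add_dotProduct]; ring)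
    (fun c x y => by simp only [qC, smul_dotProduct, smul_eq_mul]; ring)
    (fun x y y' => by rw [base_add]; ring)
    (fun c x y => by rw [base_smul, smul_eq_mul]; ring)

/-- the dual basis of `T` -/
private theorem base_basis {Q : Matrix (Fin N) (Fin N) ℚ} {w : Fin N → ℂ}
    {T : Submodule ℚ (Fin N → ℚ)} (hK : IsK3Hodge Q w T) {r : ℕ} (hr : finrank ℚ T = r) :
    ∃ (b : Basis (Fin r) ℚ T) (t : Fin r → T), ∀ i (y : T),
      ((t i : T) : Fin N → ℚ) ⬝ᵥ (Q *ᵥ (y : Fin N → ℚ)) = b.coord i y := by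
  let φ : T →ₗ[ℚ] Dual ℚ T := LinearMap.mk₂ ℚ
    (fun x y : T => (x : Fin N → ℚ) ⬝ᵥ (Q *ᵥ (y : Fin N → ℚ)))
    (fun x x' y => by simp only [Submodule.coe_add, add_dotProduct])
    (fun c x y => by simp only [Submodule.coe_smul, smul_dotProduct])
    (fun x y y' => by simp only [Submodule.coe_add, Matrix.mulVec_add, dotProduct_add])
    (fun c x y => by simp only [Submodule.coe_smul, Matrix.mulVec_smul, dotProduct_smul])
  have hφ : ∀ x y : T, φ x y = (x : Fin N → ℚ) ⬝ᵥ (Q *ᵥ (y : Fin N → ℚ)) := fun x y => rfl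
  have hi : Function.Injective φ := by
    rw [injective_iff_map_eq_zero]
    intro x hx
    apply Subtype.ext
    refine nondeg hK x.2 ?_
    intro y hy
    have := hφ x ⟨y, hy⟩
    rw [hx] at this
    exact this.symm
  have hs : Function.Surjective φ :=
    (LinearMap.injective_iff_surjective_of_finrank_eq_finrank
      (by rw [Subspace.dual_finrank_eq])).1 hi
  let b := Module.finBasisOfFinrankEq ℚ T hr
  choose t ht using fun i => hs (b.coord i)
  exact ⟨b, t, fun i y => by rw [← hφ, ht]⟩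

private theorem base_perp {Q : Matrix (Fin N) (Fin N) ℚ} (hQ : Qᵀ = Q)
    {T : Submodule ℚ (Fin N → ℚ)} {x y : Fin N → ℂ} (hx : x ∈ spanC T) (hy : y ∈ perpS Q T) :
    qC Q x y = 0 := by
  unfold perpS at hy
  induction hy using Submodule.span_induction with
  | mem y hy =>
    obtain ⟨v, hv, rfl⟩ := hy
    unfold spanC at hx
    induction hx using Submodule.span_induction with
    | mem x hx =>
      obtain ⟨t, ht, rfl⟩ := hx
      rw [base_symm hQ]
      change qC Q (vR v) (vR t) = 0
      rw [base_vR, hv t ht, Rat.cast_zero]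
    | zero => rw [base_symm hQ]; simp [qC]
    | add x x' _ _ h1 h2 => rw [base_symm hQ, base_add, base_symm hQ, h1, base_symm hQ, h2, add_zero]
    | smul c x _ h1 => rw [base_symm hQ, base_smul, base_symm hQ, h1, mul_zero]
  | zero => simp [qC]
  | add x x' _ _ h1 h2 => rw [base_add, h1, h2, add_zero]
  | smul c x _ h1 => rw [base_smul, h1, mul_zero]

theorem exists_spl {Q J : Matrix (Fin N) (Fin N) ℚ} {w : Fin N → ℂ} {T : Submodule ℚ (Fin N → ℚ)}
    {z : ℂ} {s : ℚ} {m : ℕ} (hs : s = 0 ∨ s = 1) (hz : z ^ 2 + s * z + 1 = 0) (hIm : 0 < z.im)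
    (hK : IsK3Hodge Q w T) (hJ : IsHodgeEnd Q w T J z) (hdim : finrank ℚ T = 2 * m) :
    ∃ e f : Fin m → (Fin N → ℂ), Spl (vecL Q) (revC Q) (fun x y => 2 * qC Q x y)
      (eigS T J z) (eigS T J (star z)) (perpS Q T) e f := by
  have hQ := hK.symm
  have hzz := root_mul hz hIm
  have hsum := root_sum hz hIm
  have hne := root_ne hIm
  have hstar_ne : star z - z ≠ 0 := fun h => hne (by linear_combination -h)
  have hst := stab hK.tr J hJ.two
  have hstC := stabC J hst
  have hiso := J_iso hK hJ hzz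
  have hisoC := isoC (T := T) (Q := Q) (B := Q) J hiso
  have hquad := J_quad hK.tr hJ.two hz
  obtain ⟨b, t, hbt⟩ := base_basis hK hdim
  have hquadC : ∀ x ∈ spanC T, toC J *ᵥ (toC J *ᵥ x) = -(s : ℂ) • (toC J *ᵥ x) - x := by
    intro x hx
    have h1 := killC (T := T) (J * J + s • J + 1) (by
      intro v hv
      rw [Matrix.add_mulVec, Matrix.add_mulVec, ← Matrix.mulVec_mulVec, Matrix.smul_mulVec,
        Matrix.one_mulVec]
      exact hquad v hv) x hx
    rw [toC_add, toC_add, toC_mul, toC_smul, toC_one, Matrix.add_mulVec, Matrix.add_mulVec,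
      ← Matrix.mulVec_mulVec, Matrix.smul_mulVec, Matrix.one_mulVec] at h1
    rw [neg_smul]
    have h2 : toC J *ᵥ (toC J *ᵥ x) = -((s : ℂ) • (toC J *ᵥ x) + x) := by
      rw [eq_neg_iff_add_eq_zero, ← add_assoc]
      exact h1
    rw [h2]
    abel
  have hst2 : ∀ x ∈ spanC T, x = ∑ i, qC Q x (vR (t i : Fin N → ℚ)) • vR (b i : Fin N → ℚ) := by
    intro x hx
    unfold spanC at hx
    induction hx using Submodule.span_induction with
    | mem x hx =>
      obtain ⟨v, hv, rfl⟩ := hx
      have h1 := congrArg (fun u : T => (u : Fin N → ℚ)) (b.sum_repr ⟨v, hv⟩)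
      simp only [Submodule.coe_sum, Submodule.coe_smul] at h1
      have h2 : ∀ i, qC Q (vR v) (vR (t i : Fin N → ℚ)) = ((b.repr ⟨v, hv⟩ i : ℚ) : ℂ) := by
        intro i
        rw [base_symm hQ, base_vR]
        have h3 := hbt i ⟨v, hv⟩
        simp only at h3
        rw [h3, Basis.coord_apply]
      change vR v = ∑ i, qC Q (vR v) (vR (t i : Fin N → ℚ)) • vR (b i : Fin N → ℚ)
      simp only [h2]
      calc vR v = vR (∑ i, b.repr ⟨v, hv⟩ i • (b i : Fin N → ℚ)) := by rw [h1]
        _ = ∑ i, ((b.repr ⟨v, hv⟩ i : ℚ) : ℂ) • vR (b i : Fin N → ℚ) := by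
          ext a
          simp only [vR, Finset.sum_apply, Pi.smul_apply, smul_eq_mul, Rat.cast_sum,
            Rat.cast_mul]
    | zero =>
      symm
      refine Finset.sum_eq_zero fun i _ => ?_
      rw [base_symm hQ]
      simp [qC]
    | add x x' _ _ h1 h2 =>
      conv_lhs => rw [h1, h2]
      rw [← Finset.sum_add_distrib]
      refine Finset.sum_congr rfl fun i _ => ?_
      rw [← add_smul, base_symm hQ (x + x'), base_add, base_symm hQ x, base_symm hQ x']
    | smul c x _ h1 =>
      conv_lhs => rw [h1]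
      rw [Finset.smul_sum]
      refine Finset.sum_congr rfl fun i _ => ?_
      rw [smul_smul, base_symm hQ (c • x), base_smul, base_symm hQ x]
  have hnd : ∀ x ∈ spanC T, (∀ y ∈ spanC T, qC Q x y = 0) → x = 0 := by
    intro x hx h
    rw [hst2 x hx]
    refine Finset.sum_eq_zero fun i _ => ?_
    rw [h _ (vR_mem (t i).2), zero_smul]
  have hli : LinearIndependent ℂ (fun i => vR (b i : Fin N → ℚ)) := by
    rw [Fintype.linearIndependent_iff]
    intro c hc k
    have h1 : qC Q (vR (t k : Fin N → ℚ)) (∑ i, c i • vR (b i : Fin N → ℚ)) = 0 := by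
      rw [hc]; simp [qC]
    have h2 : ∀ i, qC Q (vR (t k : Fin N → ℚ)) (vR (b i : Fin N → ℚ)) = if i = k then 1 else 0 := by
      intro i
      rw [base_vR, hbt k (b i), Basis.coord_apply, Basis.repr_self, Finsupp.single_apply]
      split_ifs <;> simp
    have h3 : qC Q (vR (t k : Fin N → ℚ)) (∑ i, c i • vR (b i : Fin N → ℚ)) =
        ∑ i, c i * qC Q (vR (t k : Fin N → ℚ)) (vR (b i : Fin N → ℚ)) := by
      simp only [qC, Matrix.mulVec_sum, dotProduct_sum, Matrix.mulVec_smul, dotProduct_smul,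
        smul_eq_mul]
    rw [h3] at h1
    simp only [h2, mul_ite, mul_one, mul_zero, Finset.sum_ite_eq', Finset.mem_univ, if_true] at h1
    exact h1
  have hfin : finrank ℂ (spanC T) = 2 * m := by
    have h1 : spanC T = Submodule.span ℂ (Set.range fun i => vR (b i : Fin N → ℚ)) := by
      apply le_antisymm
      · intro x hx
        rw [hst2 x hx]
        exact Submodule.sum_mem _ fun i _ =>
          Submodule.smul_mem _ _ (Submodule.subset_span ⟨i, rfl⟩)
      · refine Submodule.span_le.2 ?_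
        rintro _ ⟨i, rfl⟩
        exact vR_mem (b i).2
    rw [h1, finrank_span_eq_card hli, Fintype.card_fin]
  have hdec : ∀ x ∈ spanC T, ∃ p ∈ eigS T J z, ∃ q ∈ eigS T J (star z), x = p + q := by
    intro x hx
    have hJx := hstC x hx
    refine ⟨(z - star z)⁻¹ • (toC J *ᵥ x - star z • x), ⟨?_, ?_⟩,
      (z - star z)⁻¹ • (z • x - toC J *ᵥ x), ⟨?_, ?_⟩, ?_⟩
    · exact Submodule.smul_mem _ _ (Submodule.sub_mem _ hJx (Submodule.smul_mem _ _ hx))
    · unfold appC
      rw [Matrix.mulVec_smul, Matrix.mulVec_sub, Matrix.mulVec_smul, hquadC x hx, smul_comm z]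
      congr 1
      rw [smul_sub, smul_smul, hzz, one_smul]
      have h1 : -(s : ℂ) • (toC J *ᵥ x) - x - star z • (toC J *ᵥ x) =
          (-(s : ℂ) - star z) • (toC J *ᵥ x) - x := by
        rw [sub_smul]; abel
      rw [h1]
      congr 2
      linear_combination -hsum
    · exact Submodule.smul_mem _ _ (Submodule.sub_mem _ (Submodule.smul_mem _ _ hx) hJx)
    · unfold appC
      rw [Matrix.mulVec_smul, Matrix.mulVec_sub, Matrix.mulVec_smul, hquadC x hx,
        smul_comm (star z)]
      congr 1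
      rw [smul_sub, smul_smul, mul_comm (star z) z, hzz, one_smul]
      have h1 : z • (toC J *ᵥ x) - (-(s : ℂ) • (toC J *ᵥ x) - x) =
          x - (-(s : ℂ) - z) • (toC J *ᵥ x) := by
        rw [sub_smul]; abel
      rw [h1]
      congr 2
      linear_combination -hsum
    · rw [← smul_add]
      have h1 : toC J *ᵥ x - star z • x + (z • x - toC J *ᵥ x) = (z - star z) • x := by
        rw [sub_smul]; abel
      rw [h1, smul_smul, inv_mul_cancel₀ hne, one_smul]
  have hW : eigS T J z ⊔ eigS T J (star z) = spanC T := by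
    apply le_antisymm
    · exact sup_le (fun x hx => hx.1) (fun x hx => hx.1)
    · intro x hx
      obtain ⟨p, hp, q, hq, rfl⟩ := hdec x hx
      exact Submodule.add_mem_sup hp hq
  have hdisj : eigS T J z ⊓ eigS T J (star z) = ⊥ := by
    rw [Submodule.eq_bot_iff]
    rintro x ⟨h1, h2⟩
    have h3 : (z - star z) • x = 0 := by
      rw [sub_smul, ← h1.2, ← h2.2, sub_self]
    exact (smul_eq_zero.1 h3).resolve_left hne
  have hz2 : z ^ 2 - 1 ≠ 0 := by
    intro h
    have h1 : z * (z - star z) = 0 := by linear_combination h - hzz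
    rcases mul_eq_zero.1 h1 with h2 | h2
    · rw [h2] at hIm; simp at hIm
    · exact hne h2
  have hz2' : (star z) ^ 2 - 1 ≠ 0 := by
    intro h
    have h1 : star z * (z - star z) = 0 := by linear_combination hzz - h
    rcases mul_eq_zero.1 h1 with h2 | h2
    · rw [h2, mul_zero] at hzz; exact zero_ne_one hzz
    · exact hne h2
  have hww : ∀ u : ℂ, u ^ 2 - 1 ≠ 0 → ∀ x ∈ eigS T J u, ∀ y ∈ eigS T J u, qC Q x y = 0 := by
    intro u hu x hx y hy
    have h1 := hisoC x hx.1 y hy.1
    have hx2 : toC J *ᵥ x = u • x := hx.2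
    have hy2 : toC J *ᵥ y = u • y := hy.2
    rw [hx2, hy2, base_smul, base_symm hQ (u • x), base_smul, base_symm hQ y] at h1
    have h2 : (u ^ 2 - 1) * qC Q x y = 0 := by linear_combination h1
    exact (mul_eq_zero.1 h2).resolve_left hu
  have hB : ∀ x y, baseB Q x y = 2 * qC Q x y := fun x y => rfl
  obtain ⟨e, f, he, hf, hd, se, sf⟩ := base_dual (baseB Q)
    (fun x y => by rw [hB, hB, base_symm hQ]) (eigS T J z) (eigS T J (star z)) (m := m)
    (fun x hx y hy => by rw [hB, hww z hz2 x hx y hy, mul_zero])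
    (fun x hx y hy => by rw [hB, hww (star z) hz2' x hx y hy, mul_zero])
    (by
      rw [hW]
      intro x hx h
      refine hnd x hx fun y hy => ?_
      have h1 := h y hy
      rw [hB] at h1
      exact (mul_eq_zero.1 h1).resolve_left two_ne_zero) hdisj (by rw [hW]; exact hfin)
  refine ⟨e, f, ?_⟩
  exact
    { cl := cl_rel hQ
      symm := fun x y => by rw [base_symm hQ]
      rev_ι := rev_vecL Q
      rev_mul := rev_mulL Q
      rev_rev := rev_revL Q
      rev_one := rev_oneL Q
      gen := gen_vecL Q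
      top := by
        intro v
        have h1 : ∀ a : Fin N, ∃ p ∈ spanC T, ∃ n ∈ perpS Q T,
            (Pi.single a 1 : Fin N → ℂ) = p + n := by
          intro a
          let x : Fin N → ℚ := Pi.single a 1
          let p : Fin N → ℚ := ∑ i, (x ⬝ᵥ (Q *ᵥ (b i : Fin N → ℚ))) • (t i : Fin N → ℚ)
          have hp : p ∈ T := Submodule.sum_mem _ fun i _ => Submodule.smul_mem _ _ (t i).2
          refine ⟨vR p, vR_mem hp, vR (x - p), Submodule.subset_span ⟨x - p, ?_, rfl⟩, ?_⟩
          · intro y hy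
            have h2 := congrArg (fun u : T => (u : Fin N → ℚ)) (b.sum_repr ⟨y, hy⟩)
            simp only [Submodule.coe_sum, Submodule.coe_smul] at h2
            have h3 : x ⬝ᵥ (Q *ᵥ y) = ∑ i, b.repr ⟨y, hy⟩ i * (x ⬝ᵥ (Q *ᵥ (b i : Fin N → ℚ))) := by
              conv_lhs => rw [← h2]
              simp only [Matrix.mulVec_sum, dotProduct_sum, Matrix.mulVec_smul, dotProduct_smul,
                smul_eq_mul]
            have h4 : p ⬝ᵥ (Q *ᵥ y) = ∑ i, (x ⬝ᵥ (Q *ᵥ (b i : Fin N → ℚ))) * b.repr ⟨y, hy⟩ i := by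
              change (∑ i, (x ⬝ᵥ (Q *ᵥ (b i : Fin N → ℚ))) • (t i : Fin N → ℚ)) ⬝ᵥ _ = _
              rw [sum_dotProduct]
              refine Finset.sum_congr rfl fun i _ => ?_
              rw [smul_dotProduct, smul_eq_mul]
              have h5 := hbt i ⟨y, hy⟩
              simp only at h5
              rw [h5, Basis.coord_apply]
            rw [sub_dotProduct, h3, h4, ← Finset.sum_sub_distrib]
            exact Finset.sum_eq_zero fun i _ => by ring
          · rw [← vR_add, add_sub_cancel, single_vR]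
        choose p hp n hn hpn using h1
        have h2 : v = (∑ a, v a • p a) + ∑ a, v a • n a := by
          rw [← Finset.sum_add_distrib]
          conv_lhs => rw [PQK.sum_single v]
          refine Finset.sum_congr rfl fun a _ => ?_
          rw [hpn a, smul_add]
        obtain ⟨x, hx, y, hy, hxy⟩ := hdec (∑ a, v a • p a)
          (Submodule.sum_mem _ fun a _ => Submodule.smul_mem _ _ (hp a))
        exact ⟨x, hx, y, hy, ∑ a, v a • n a,
          Submodule.sum_mem _ fun a _ => Submodule.smul_mem _ _ (hn a), h2.trans (by rw [hxy])⟩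
      ww := fun x hx y hy => by rw [hww z hz2 x hx y hy, mul_zero]
      w'w' := fun x hx y hy => by rw [hww (star z) hz2' x hx y hy, mul_zero]
      wn := fun x hx y hy => by rw [base_perp hQ hx.1 hy, mul_zero]
      w'n := fun x hx y hy => by rw [base_perp hQ hx.1 hy, mul_zero]
      he := he
      hf := hf
      dual := hd
      span_e := se
      span_f := sf }

end Pool.Agent.KSH
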