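import Pool.Agent.KSH.Abs

/-!
# KSH-Core: the abstract theorem

`s` commutes with `j` (`[j, x] = θ x, -θ x, 0` on `W, W', N`), `s* s = μ ≠ 0`, and
`s x_1 ⋯ x_k η = ν (a x_1) ⋯ (a x_k) η` for `k ≤ m / 2` and `k = m`, `x_i ∈ W`. Then `s ι v = ι (a v) s` for all `v`.
(1) annihilator lemma: `d x_1 ⋯ x_k η = 0` for all words of `W` implies `d = 0`. (2) `j - θ Σ e_i f_i` is central, so
`η* c η = 0` if `[j, c] = θ p c`, `p ≠ m`. (3) duality `k → m - k` with `s* s = μ`. (4) contraction formula.
-/

namespace Pool.Agent.KSH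

variable {V C : Type*} [AddCommGroup V] [Module ℂ V] [Ring C] [Algebra ℂ C] {m : ℕ}

private theorem core_wd_nil (ι : V →ₗ[ℂ] C) : wd ι [] = 1 := rfl

private theorem core_wd_cons (ι : V →ₗ[ℂ] C) (x : V) (l : List V) : wd ι (x :: l) = ι x * wd ι l := by
  simp [wd]

private theorem core_wd_app (ι : V →ₗ[ℂ] C) (l l' : List V) : wd ι (l ++ l') = wd ι l * wd ι l' := by
  simp [wd]

variable {ι : V →ₗ[ℂ] C} {rev : C →ₗ[ℂ] C} {B : V → V → ℂ} {W W' N : Submodule ℂ V} {e f : Fin m → V}

private theorem core_rev_wd (h : Spl ι rev B W W' N e f) (l : List V) : rev (wd ι l) = wd ι l.reverse := by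
  induction l with
  | nil => rw [core_wd_nil, h.rev_one]; rfl
  | cons x l ih =>
    rw [core_wd_cons, h.rev_mul, ih, h.rev_ι, List.reverse_cons, core_wd_app, core_wd_cons, core_wd_nil,
      mul_one]

private theorem core_anti (h : Spl ι rev B W W' N e f) {x y : V} (hxy : B x y = 0) :
    ι x * ι y = -(ι y * ι x) := by
  have h1 := h.cl x y
  rw [hxy, map_zero] at h1
  exact eq_neg_of_add_eq_zero_left h1

private theorem core_sq (h : Spl ι rev B W W' N e f) {x : V} (hx : B x x = 0) : ι x * ι x = 0 := by
  have h1 := h.cl x x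
  rw [hx, map_zero, ← two_smul ℂ (ι x * ι x)] at h1
  exact (smul_eq_zero.1 h1).resolve_left two_ne_zero

private theorem core_sign (h : Spl ι rev B W W' N e f) {v : V} (l : List V) (hl : ∀ x ∈ l, B v x = 0) :
    ι v * wd ι l = (-1 : ℂ) ^ l.length • (wd ι l * ι v) := by
  induction l with
  | nil => simp [core_wd_nil]
  | cons x l ih =>
    rw [core_wd_cons, ← mul_assoc, core_anti h (hl x (by simp)), neg_mul, mul_assoc,
      ih (fun y hy => hl y (by simp [hy])), mul_smul_comm, List.length_cons, pow_succ, mul_smul,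
      mul_assoc, neg_smul, one_smul, smul_neg]

private theorem core_ann_aux (h : Spl ι rev B W W' N e f) (d : C) (L : List (Fin m)) (hL : L.Nodup)
    (hd : ∀ l : List V, (∀ x ∈ l, x ∈ W) → d * wd ι l * wd ι (L.map f) = 0) :
    ∀ l : List V, (∀ x ∈ l, x ∈ W) → d * wd ι l = 0 := by
  induction L using List.reverseRecOn with
  | nil =>
    intro l hl
    have h1 := hd l hl
    simpa [wd] using h1
  | append_singleton L i ih =>
    obtain ⟨hL1, hL2, hL3⟩ := List.nodup_append.1 hL
    refine ih hL1 ?_
    intro l hl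
    have hi : i ∉ L := fun hi => (hL3 i hi i (by simp)) rfl
    have h1 : ι (e i) * ι (f i) + ι (f i) * ι (e i) = 1 := by
      rw [h.cl, h.dual, if_pos rfl, map_one]
    have h2 : ι (e i) * wd ι (L.map f) = (-1 : ℂ) ^ L.length • (wd ι (L.map f) * ι (e i)) := by
      have h3 := core_sign h (v := e i) (L.map f) (by
        intro x hx
        obtain ⟨k, hk, rfl⟩ := List.mem_map.1 hx
        rw [h.dual, if_neg]
        rintro rfl
        exact hi hk)
      rwa [List.length_map] at h3
    have h4 : wd ι (L.map f) * ι (e i) = (-1 : ℂ) ^ L.length • (ι (e i) * wd ι (L.map f)) := by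
      rw [h2, smul_smul, ← pow_add, ← two_mul, pow_mul, neg_one_sq, one_pow, one_smul]
    have h5 : wd ι ((L ++ [i]).map f) = wd ι (L.map f) * ι (f i) := by
      rw [List.map_append, core_wd_app]
      simp [wd]
    have h6 : d * wd ι l * wd ι (L.map f) * (ι (f i) * ι (e i)) = 0 := by
      rw [← mul_assoc, mul_assoc (d * wd ι l) _ (ι (f i)), ← h5, hd l hl, zero_mul]
    have h7 : d * wd ι l * wd ι (L.map f) * (ι (e i) * ι (f i)) = 0 := by
      have h8 : d * wd ι (l ++ [e i]) * wd ι ((L ++ [i]).map f) = 0 := by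
        refine hd _ ?_
        intro x hx
        rcases List.mem_append.1 hx with hx | hx
        · exact hl x hx
        · rw [List.mem_singleton.1 hx]
          exact h.he i
      rw [h5, core_wd_app] at h8
      have h9 : wd ι [e i] = ι (e i) := by simp [wd]
      rw [h9] at h8
      rw [← mul_assoc, mul_assoc (d * wd ι l), h4, mul_smul_comm, smul_mul_assoc]
      have h10 : d * wd ι l * (ι (e i) * wd ι (L.map f)) * ι (f i) =
          d * (wd ι l * ι (e i)) * (wd ι (L.map f) * ι (f i)) := by
        simp only [mul_assoc]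
      rw [h10, h8, smul_zero]
    calc d * wd ι l * wd ι (L.map f)
        = d * wd ι l * wd ι (L.map f) * (ι (e i) * ι (f i) + ι (f i) * ι (e i)) := by rw [h1, mul_one]
      _ = 0 := by rw [mul_add, h6, h7, add_zero]

private theorem core_ann (h : Spl ι rev B W W' N e f) {d : C}
    (hd : ∀ l : List V, (∀ x ∈ l, x ∈ W) → d * wd ι l * eta ι f = 0) : d = 0 := by
  have h1 := core_ann_aux h d (List.finRange m) (List.nodup_finRange m) (by
    intro l hl
    have h2 := hd l hl
    unfold eta at h2
    rwa [List.ofFn_eq_map] at h2) [] (by simp)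
  rwa [core_wd_nil, mul_one] at h1

private theorem core_f_eta (h : Spl ι rev B W W' N e f) {y : V} (hy : y ∈ W') : ι y * eta ι f = 0 := by
  have h1 : ∀ (L : List (Fin m)) (i : Fin m), i ∈ L → ι (f i) * wd ι (L.map f) = 0 := by
    intro L i
    induction L with
    | nil => intro hi; simp at hi
    | cons k L ih =>
      intro hi
      rw [List.map_cons, core_wd_cons, ← mul_assoc]
      by_cases hik : i = k
      · rw [hik, core_sq h (h.w'w' _ (h.hf k) _ (h.hf k)), zero_mul]
      · rw [core_anti h (h.w'w' _ (h.hf i) _ (h.hf k)), neg_mul, mul_assoc,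
          ih ((List.mem_cons.1 hi).resolve_left hik), mul_zero, neg_zero]
  rw [h.span_f y hy, map_sum, Finset.sum_mul]
  refine Finset.sum_eq_zero fun i _ => ?_
  rw [map_smul, smul_mul_assoc, eta, List.ofFn_eq_map, h1 _ i (List.mem_finRange i), smul_zero]

private theorem core_eta_f (h : Spl ι rev B W W' N e f) {y : V} (hy : y ∈ W') :
    rev (eta ι f) * ι y = 0 := by
  have h1 := congrArg rev (core_f_eta h hy)
  rwa [h.rev_mul, h.rev_ι, map_zero] at h1

/-- the number operator -/
private noncomputable def core_h (ι : V →ₗ[ℂ] C) (e f : Fin m → V) : C := ∑ i, ι (e i) * ι (f i)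

private theorem core_h_comm (h : Spl ι rev B W W' N e f) (v : V) :
    core_h ι e f * ι v - ι v * core_h ι e f =
      ι (∑ i, B (f i) v • e i) - ι (∑ i, B (e i) v • f i) := by
  unfold core_h
  rw [Finset.sum_mul, Finset.mul_sum, ← Finset.sum_sub_distrib, map_sum, map_sum,
    ← Finset.sum_sub_distrib]
  refine Finset.sum_congr rfl fun i _ => ?_
  have h1 : ι (f i) * ι v = B (f i) v • (1 : C) - ι v * ι (f i) := by
    rw [eq_sub_iff_add_eq, h.cl, Algebra.algebraMap_eq_smul_one]
  have h2 : ι (e i) * ι v = B (e i) v • (1 : C) - ι v * ι (e i) := by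
    rw [eq_sub_iff_add_eq, h.cl, Algebra.algebraMap_eq_smul_one]
  rw [mul_assoc, h1, mul_sub, ← mul_assoc (ι (e i)), h2, sub_mul, map_smul, map_smul, mul_smul_comm,
    mul_one, smul_mul_assoc, one_mul, mul_assoc]
  abel

variable {j : C} {θ : ℂ}

private theorem core_central (h : Spl ι rev B W W' N e f)
    (hj : ∀ x ∈ W, j * ι x - ι x * j = θ • ι x)
    (hj' : ∀ x ∈ W', j * ι x - ι x * j = -θ • ι x)
    (hjn : ∀ x ∈ N, j * ι x - ι x * j = 0) (c : C) :
    (j - θ • core_h ι e f) * c = c * (j - θ • core_h ι e f) := by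
  have h0 : ∀ v : V, (j - θ • core_h ι e f) * ι v = ι v * (j - θ • core_h ι e f) := by
    intro v
    obtain ⟨x, hx, y, hy, n, hn, rfl⟩ := h.top v
    have c1 : core_h ι e f * ι x - ι x * core_h ι e f = ι x := by
      rw [core_h_comm h x, ← h.span_e x hx, Finset.sum_eq_zero, map_zero, sub_zero]
      intro i _
      rw [h.ww _ (h.he i) _ hx, zero_smul]
    have c2 : core_h ι e f * ι y - ι y * core_h ι e f = -ι y := by
      rw [core_h_comm h y, ← h.span_f y hy, Finset.sum_eq_zero, map_zero, zero_sub]
      intro i _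
      rw [h.w'w' _ (h.hf i) _ hy, zero_smul]
    have c3 : core_h ι e f * ι n - ι n * core_h ι e f = 0 := by
      rw [core_h_comm h n, Finset.sum_eq_zero, Finset.sum_eq_zero, sub_self]
      · intro i _
        rw [h.wn _ (h.he i) _ hn, zero_smul]
      · intro i _
        rw [h.w'n _ (h.hf i) _ hn, zero_smul]
    have h1 := hj x hx
    have h2 := hj' y hy
    have h3 := hjn n hn
    rw [← sub_eq_zero]
    have h4 : (j - θ • core_h ι e f) * ι (x + y + n) - ι (x + y + n) * (j - θ • core_h ι e f) =
        (j * ι x - ι x * j) + (j * ι y - ι y * j) + (j * ι n - ι n * j) -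
          (θ • (core_h ι e f * ι x - ι x * core_h ι e f) +
          θ • (core_h ι e f * ι y - ι y * core_h ι e f) +
          θ • (core_h ι e f * ι n - ι n * core_h ι e f)) := by
      simp only [map_add, mul_add, add_mul, sub_mul, mul_sub, smul_mul_assoc, mul_smul_comm, smul_sub,
        smul_add]
      abel
    rw [h4, h1, h2, h3, c1, c2, c3]
    simp only [smul_neg, neg_smul, smul_zero]
    abel
  have h5 : c ∈ Algebra.adjoin ℂ (Set.range ι) := by
    rw [h.gen]
    exact Algebra.mem_top
  induction h5 using Algebra.adjoin_induction with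
  | mem x hx =>
    obtain ⟨v, rfl⟩ := hx
    exact h0 v
  | algebraMap r => exact (Algebra.commutes r _).symm
  | add x y _ _ hx hy => rw [mul_add, hx, hy, add_mul]
  | mul x y _ _ hx hy => rw [← mul_assoc, hx, mul_assoc, hy, mul_assoc]

private theorem core_h_eta (h : Spl ι rev B W W' N e f) : core_h ι e f * eta ι f = 0 := by
  unfold core_h
  rw [Finset.sum_mul]
  refine Finset.sum_eq_zero fun i _ => ?_
  rw [mul_assoc, core_f_eta h (h.hf i), mul_zero]

private theorem core_eta_h (h : Spl ι rev B W W' N e f) :
    rev (eta ι f) * core_h ι e f = (m : ℂ) • rev (eta ι f) := by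
  unfold core_h
  rw [Finset.mul_sum]
  have h1 : ∀ i, rev (eta ι f) * (ι (e i) * ι (f i)) = rev (eta ι f) := by
    intro i
    have h2 : ι (e i) * ι (f i) = 1 - ι (f i) * ι (e i) := by
      rw [eq_sub_iff_add_eq, h.cl, h.dual, if_pos rfl, map_one]
    rw [h2, mul_sub, mul_one, ← mul_assoc, core_eta_f h (h.hf i), zero_mul, sub_zero]
  rw [Finset.sum_congr rfl fun i _ => h1 i, Finset.sum_const, Finset.card_univ, Fintype.card_fin,
    Nat.cast_smul_eq_nsmul]

private theorem core_grade (h : Spl ι rev B W W' N e f) (hθ : θ ≠ 0)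
    (hj : ∀ x ∈ W, j * ι x - ι x * j = θ • ι x)
    (hj' : ∀ x ∈ W', j * ι x - ι x * j = -θ • ι x)
    (hjn : ∀ x ∈ N, j * ι x - ι x * j = 0) {c : C} {p : ℕ} (hc : j * c - c * j = (θ * p) • c)
    (hp : p ≠ m) : rev (eta ι f) * c * eta ι f = 0 := by
  have h1 := core_central h hj hj' hjn c
  obtain ⟨z, hz⟩ : ∃ z, z = j - θ • core_h ι e f := ⟨_, rfl⟩
  have hjz : j = z + θ • core_h ι e f := by rw [hz, sub_add_cancel]
  rw [← hz] at h1
  have h2 : rev (eta ι f) * (j * c - c * j) * eta ι f =
      (θ * m) • (rev (eta ι f) * c * eta ι f) := by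
    have h3 : rev (eta ι f) * (j * c) * eta ι f =
        rev (eta ι f) * (z * c) * eta ι f + (θ * m) • (rev (eta ι f) * c * eta ι f) := by
      have h4 : rev (eta ι f) * j = rev (eta ι f) * z + (θ * m) • rev (eta ι f) := by
        rw [hjz, mul_add, mul_smul_comm, core_eta_h h, smul_smul]
      rw [← mul_assoc, h4, add_mul, add_mul, smul_mul_assoc, smul_mul_assoc]
      simp only [mul_assoc]
    have h5 : rev (eta ι f) * (c * j) * eta ι f = rev (eta ι f) * (c * z) * eta ι f := by
      have h6 : j * eta ι f = z * eta ι f := by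
        rw [hjz, add_mul, smul_mul_assoc, core_h_eta h, smul_zero, add_zero]
      rw [mul_assoc, mul_assoc c, h6]
      simp only [mul_assoc]
    rw [mul_sub, sub_mul, h3, h5, h1]
    abel
  rw [hc, mul_smul_comm, smul_mul_assoc, ← sub_eq_zero, ← sub_smul, smul_eq_zero] at h2
  rcases h2 with h2 | h2
  · exfalso
    rw [← mul_sub, mul_eq_zero, sub_eq_zero] at h2
    rcases h2 with h2 | h2
    · exact hθ h2
    · exact hp (by exact_mod_cast h2)
  · exact h2

private theorem core_wd_deg (hj : ∀ x ∈ W, j * ι x - ι x * j = θ • ι x) (l : List V)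
    (hl : ∀ x ∈ l, x ∈ W) : j * wd ι l - wd ι l * j = (θ * l.length) • wd ι l := by
  induction l with
  | nil => simp [core_wd_nil]
  | cons x l ih =>
    have h1 := ih fun y hy => hl y (by simp [hy])
    have h2 := hj x (hl x (by simp))
    rw [core_wd_cons]
    have h3 : j * (ι x * wd ι l) - ι x * wd ι l * j =
        (j * ι x - ι x * j) * wd ι l + ι x * (j * wd ι l - wd ι l * j) := by
      simp only [sub_mul, mul_sub, mul_assoc]
      abel
    rw [h3, h1, h2, smul_mul_assoc, mul_smul_comm, ← add_smul, List.length_cons]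
    congr 1
    push_cast
    ring

private theorem core_pre {a : V →ₗ[ℂ] V} (h : Spl ι rev B W W' N e f) (haW : ∀ x ∈ W, a x ∈ W)
    (haW' : ∀ x ∈ W', a x ∈ W') (hiso : ∀ x y, B (a x) (a y) = B x y) {x : V} (hx : x ∈ W) :
    ∃ y ∈ W, a y = x := by
  have hW : W = Submodule.span ℂ (Set.range e) := by
    apply le_antisymm
    · intro y hy
      rw [h.span_e y hy]
      exact Submodule.sum_mem _ fun i _ => Submodule.smul_mem _ _ (Submodule.subset_span ⟨i, rfl⟩)
    · rw [Submodule.span_le]
      rintro _ ⟨i, rfl⟩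
      exact h.he i
  have hfin : FiniteDimensional ℂ W := by
    rw [hW]
    exact FiniteDimensional.span_of_finite ℂ (Set.finite_range e)
  have hinj : Function.Injective (a.restrict haW) := by
    rw [← LinearMap.ker_eq_bot, LinearMap.ker_eq_bot']
    rintro ⟨y, hy⟩ h0
    have h1 : a y = 0 := congrArg Subtype.val h0
    have h2 : y = 0 := by
      rw [h.span_e y hy]
      refine Finset.sum_eq_zero fun i _ => ?_
      have h3 : B (f i) y = 0 := by
        rw [← hiso, h1, h.symm]
        exact h.w'w' 0 (W'.zero_mem) _ (haW' _ (h.hf i))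
      rw [h3, zero_smul]
    exact Subtype.ext h2
  obtain ⟨y, hy⟩ := (LinearMap.injective_iff_surjective.1 hinj) ⟨x, hx⟩
  exact ⟨y, y.2, congrArg Subtype.val hy⟩

private theorem core_pre_list {a : V →ₗ[ℂ] V} (h : Spl ι rev B W W' N e f) (haW : ∀ x ∈ W, a x ∈ W)
    (haW' : ∀ x ∈ W', a x ∈ W') (hiso : ∀ x y, B (a x) (a y) = B x y) (l : List V)
    (hl : ∀ x ∈ l, x ∈ W) : ∃ l' : List V, (∀ x ∈ l', x ∈ W) ∧ l'.map a = l := by
  induction l with
  | nil => exact ⟨[], by simp, rfl⟩
  | cons x l ih =>
    obtain ⟨l', h1, h2⟩ := ih fun y hy => hl y (by simp [hy])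
    obtain ⟨y, hy, h3⟩ := core_pre h haW haW' hiso (hl x (by simp))
    refine ⟨y :: l', ?_, by rw [List.map_cons, h2, h3]⟩
    intro u hu
    rcases List.mem_cons.1 hu with rfl | hu
    · exact hy
    · exact h1 u hu

/-- the contraction of a word with `v` -/
private def core_con (ι : V →ₗ[ℂ] C) (B : V → V → ℂ) (v : V) : List V → C
  | [] => 0
  | x :: l => B v x • wd ι l - ι x * core_con ι B v l

private theorem core_con_eq (h : Spl ι rev B W W' N e f) (v : V) (l : List V) :
    ι v * wd ι l = core_con ι B v l + (-1 : ℂ) ^ l.length • (wd ι l * ι v) := by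
  induction l with
  | nil => simp [core_wd_nil, core_con]
  | cons x l ih =>
    have h1 : ι v * ι x = B v x • (1 : C) - ι x * ι v := by
      rw [eq_sub_iff_add_eq, h.cl, Algebra.algebraMap_eq_smul_one]
    rw [core_wd_cons, ← mul_assoc, h1, sub_mul, mul_assoc (ι x), ih, core_con, mul_add, smul_mul_assoc,
      one_mul, mul_smul_comm, List.length_cons, pow_succ, mul_smul, neg_smul, one_smul, smul_neg,
      mul_assoc]
    abel

private theorem core_con_R {a : V →ₗ[ℂ] V} (haW : ∀ x ∈ W, a x ∈ W)
    (hiso : ∀ x y, B (a x) (a y) = B x y) {s η : C} {ν : ℂ}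
    (hR : ∀ l : List V, (∀ x ∈ l, x ∈ W) → s * wd ι l * η = ν • (wd ι (l.map a) * η)) (v : V)
    (l : List V) : ∀ p : List V, (∀ x ∈ p, x ∈ W) → (∀ x ∈ l, x ∈ W) →
      s * (wd ι p * core_con ι B v l) * η =
        ν • (wd ι (p.map a) * core_con ι B (a v) (l.map a) * η) := by
  induction l with
  | nil => intro p _ _; simp [core_con]
  | cons x l ih =>
    intro p hp hl
    have hx := hl x (by simp)
    have hl' : ∀ y ∈ l, y ∈ W := fun y hy => hl y (by simp [hy])
    have h1 := hR (p ++ l) (by
      intro y hy
      rcases List.mem_append.1 hy with hy | hy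
      · exact hp y hy
      · exact hl' y hy)
    have h2 := ih (p ++ [x]) (by
      intro y hy
      rcases List.mem_append.1 hy with hy | hy
      · exact hp y hy
      · rw [List.mem_singleton.1 hy]
        exact hx) hl'
    have e1 : wd ι [x] = ι x := by simp [wd]
    have e2 : wd ι [a x] = ι (a x) := by simp [wd]
    rw [core_wd_app, e1, List.map_append, List.map_cons, List.map_nil, core_wd_app, e2] at h2
    rw [core_wd_app, List.map_append, core_wd_app] at h1
    simp only [core_con, List.map_cons, hiso, mul_sub, sub_mul, mul_smul_comm, smul_mul_assoc, smul_sub]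
    congr 1
    · rw [h1, smul_comm]
    · simp only [mul_assoc] at h2 ⊢
      exact h2

theorem core [Nontrivial C] (h : Spl ι rev B W W' N e f) {a : V →ₗ[ℂ] V}
    (haW : ∀ x ∈ W, a x ∈ W) (haW' : ∀ x ∈ W', a x ∈ W') (haN : ∀ x ∈ N, a x = x)
    (hiso : ∀ x y, B (a x) (a y) = B x y)
    (hθ : θ ≠ 0)
    (hj : ∀ x ∈ W, j * ι x - ι x * j = θ • ι x)
    (hj' : ∀ x ∈ W', j * ι x - ι x * j = -θ • ι x)
    (hjn : ∀ x ∈ N, j * ι x - ι x * j = 0)
    {s : C} (hsj : s * j = j * s) {μ ν : ℂ} (hμ : μ ≠ 0) (hss : rev s * s = algebraMap ℂ C μ)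
    (hR : ∀ l : List V, (2 * l.length ≤ m ∨ l.length = m) → (∀ x ∈ l, x ∈ W) →
      s * wd ι l * eta ι f = ν • (wd ι (l.map a) * eta ι f))
    (v : V) : s * ι v = ι (a v) * s := by
  have hmapW : ∀ l : List V, (∀ x ∈ l, x ∈ W) → ∀ x ∈ l.map a, x ∈ W := by
    intro l hl x hx
    obtain ⟨y, hy, rfl⟩ := List.mem_map.1 hx
    exact haW y (hl y hy)
  obtain ⟨η, hη⟩ : ∃ η, η = eta ι f := ⟨_, rfl⟩
  -- the form of two words
  have hD1 : ∀ u v : C, rev (s * u * η) * (s * v * η) = μ • (rev (u * η) * (v * η)) := by
    intro u v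
    have h1 : rev (s * u * η) * (s * v * η) = rev (u * η) * (rev s * s) * (v * η) := by
      rw [mul_assoc s u, h.rev_mul s]
      simp only [mul_assoc]
    rw [h1, hss, ← Algebra.commutes, mul_assoc, Algebra.algebraMap_eq_smul_one, smul_mul_assoc, one_mul]
  have hgr : ∀ (c : C) (p : ℕ), j * c - c * j = (θ * p) • c → p ≠ m → rev η * c * η = 0 := by
    intro c p hc hp
    rw [hη]
    exact core_grade h hθ hj hj' hjn hc hp
  have hcond0 : 2 * ([] : List V).length ≤ m ∨ ([] : List V).length = m := by
    left
    simp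
  have hR0 : s * η = ν • η := by
    have h1 := hR [] hcond0 (by simp)
    simpa [core_wd_nil, hη] using h1
  -- words of length m
  have hD2 : ∀ t : List V, (∀ x ∈ t, x ∈ W) → t.length = m →
      ν ^ 2 • (rev η * wd ι (t.map a) * η) = μ • (rev η * wd ι t * η) := by
    intro t ht htm
    have h1 := hD1 1 (wd ι t)
    rw [mul_one, one_mul, hR0] at h1
    have h2 := hR t (Or.inr htm) ht
    rw [← hη] at h2
    rw [h2, map_smul, smul_mul_assoc, mul_smul_comm, smul_smul, ← pow_two] at h1
    simpa only [mul_assoc] using h1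
  have hν : ν ≠ 0 := by
    intro hν
    have h1 : ∀ t : List V, (∀ x ∈ t, x ∈ W) → rev η * wd ι t * eta ι f = 0 := by
      intro t ht
      rw [← hη]
      by_cases htm : t.length = m
      · have h2 := hD2 t ht htm
        rw [hν, zero_pow two_ne_zero, zero_smul] at h2
        exact ((smul_eq_zero.1 h2.symm).resolve_left hμ)
      · exact hgr _ _ (core_wd_deg hj t ht) htm
    have h2 := core_ann h h1
    have h3 : η = 0 := by
      have := congrArg rev h2
      rwa [h.rev_rev, map_zero] at this
    have h4 := core_ann h (d := 1) (by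
      intro l _
      rw [← hη, h3, mul_zero])
    exact one_ne_zero h4
  -- vanishing criterion
  have hvan : ∀ D : C, (∀ t : List V, (∀ x ∈ t, x ∈ W) → rev η * wd ι t * D = 0) → D = 0 := by
    intro D hD
    have h1 : rev D = 0 := by
      apply core_ann h
      intro t ht
      have h2 := congrArg rev (hD t.reverse (by
        intro x hx
        exact ht x (List.mem_reverse.1 hx)))
      rw [h.rev_mul, h.rev_mul, h.rev_rev, core_rev_wd h, List.reverse_reverse, map_zero, ← mul_assoc] at h2
      rw [← hη]
      exact h2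
    have := congrArg rev h1
    rwa [h.rev_rev, map_zero] at this
  have hzero : ∀ u : List V, (∀ x ∈ u, x ∈ W) → m < u.length → wd ι u * η = 0 := by
    intro u hu hum
    apply hvan
    intro t ht
    rw [← mul_assoc, mul_assoc (rev η), ← core_wd_app]
    refine hgr _ _ (core_wd_deg hj (t ++ u) ?_) ?_
    · intro x hx
      rcases List.mem_append.1 hx with hx | hx
      · exact ht x hx
      · exact hu x hx
    · rw [List.length_append]
      omega
  -- duality
  have hRall : ∀ u : List V, (∀ x ∈ u, x ∈ W) → s * wd ι u * η = ν • (wd ι (u.map a) * η) := by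
    intro u hu
    by_cases h1 : 2 * u.length ≤ m ∨ u.length = m
    · rw [hη]
      exact hR u h1 hu
    · by_cases h2 : m < u.length
      · rw [mul_assoc, hzero u hu h2, mul_zero, hzero (u.map a) (hmapW u hu) (by rwa [List.length_map]),
          smul_zero]
      · rw [← sub_eq_zero]
        apply hvan
        intro t ht
        by_cases h3 : t.length + u.length = m
        · obtain ⟨v', hv', hv'2⟩ := core_pre_list h haW haW' hiso t.reverse (by
            intro x hx
            exact ht x (List.mem_reverse.1 hx))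
          have hlen : v'.length = t.length := by
            rw [← List.length_reverse (as := t), ← hv'2, List.length_map]
          have h4 := hR v' (by left; omega) hv'
          rw [← hη] at h4
          have h5 := hD1 (wd ι v') (wd ι u)
          rw [h4, map_smul, smul_mul_assoc, h.rev_mul (wd ι v') η, core_rev_wd h v',
            h.rev_mul (wd ι (v'.map a)) η, core_rev_wd h (v'.map a), hv'2, List.reverse_reverse] at h5
          have h6 := hD2 (v'.reverse ++ u) (by
            intro x hx
            rcases List.mem_append.1 hx with hx | hx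
            · exact hv' x (List.mem_reverse.1 hx)
            · exact hu x hx) (by rw [List.length_append, List.length_reverse]; omega)
          rw [core_wd_app, List.map_append, List.map_reverse, hv'2, List.reverse_reverse, core_wd_app] at h6
          have h7 : μ • (rev η * wd ι v'.reverse * (wd ι u * η)) =
              μ • (rev η * (wd ι v'.reverse * wd ι u) * η) := by
            simp only [mul_assoc]
          rw [h7, ← h6, pow_two, mul_smul] at h5
          have h8 := smul_right_injective C hν h5
          rw [mul_sub, mul_smul_comm, sub_eq_zero]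
          rw [← mul_assoc, ← mul_assoc] at h8
          simp only [mul_assoc] at h8 ⊢
          exact h8
        · have h4 : rev η * (wd ι t * (s * wd ι u) - ν • (wd ι t * wd ι (u.map a))) * η = 0 := by
            refine hgr _ (t.length + u.length) ?_ h3
            have e1 := core_wd_deg hj t ht
            have e2 := core_wd_deg hj u hu
            have e3 := core_wd_deg hj (u.map a) (hmapW u hu)
            rw [List.length_map] at e3
            have e4 : j * (wd ι t * (s * wd ι u)) - wd ι t * (s * wd ι u) * j =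
                (j * wd ι t - wd ι t * j) * (s * wd ι u) +
                  wd ι t * (s * (j * wd ι u - wd ι u * j)) := by
              have e5 : wd ι t * (s * (j * wd ι u)) = wd ι t * (j * (s * wd ι u)) := by
                rw [← mul_assoc s, hsj, mul_assoc]
              rw [mul_sub s, mul_sub (wd ι t), e5, sub_mul]
              simp only [mul_assoc]
              abel
            have e6 : j * (wd ι t * wd ι (u.map a)) - wd ι t * wd ι (u.map a) * j =
                (j * wd ι t - wd ι t * j) * wd ι (u.map a) +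
                  wd ι t * (j * wd ι (u.map a) - wd ι (u.map a) * j) := by
              rw [mul_sub, sub_mul]
              simp only [mul_assoc]
              abel
            rw [mul_sub, sub_mul, mul_smul_comm, smul_mul_assoc, sub_sub_sub_comm, e4, ← smul_sub, e6, e1,
              e2, e3]
            simp only [mul_smul_comm, smul_mul_assoc]
            rw [← add_smul, ← add_smul, smul_smul]
            push_cast
            rw [smul_sub, smul_smul]
            congr 2 <;> ring
          have h5 : rev η * wd ι t * (s * wd ι u * η - ν • (wd ι (u.map a) * η)) =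
              rev η * (wd ι t * (s * wd ι u) - ν • (wd ι t * wd ι (u.map a))) * η := by
            simp only [mul_sub, sub_mul, mul_smul_comm, smul_mul_assoc, mul_assoc]
          rw [h5, h4]
  -- the conclusion
  obtain ⟨x, hx, y, hy, n, hn, rfl⟩ := h.top v
  have hkey : ∀ l : List V, (∀ x ∈ l, x ∈ W) →
      s * (ι (x + y + n) * (wd ι l * η)) = ι (a (x + y + n)) * (s * (wd ι l * η)) := by
    intro l hl
    have hl2 := hRall l hl
    rw [mul_assoc] at hl2
    have k1 : s * (ι x * (wd ι l * η)) = ι (a x) * (s * (wd ι l * η)) := by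
      have h1 := hRall (x :: l) (by
        intro u hu
        rcases List.mem_cons.1 hu with rfl | hu
        · exact hx
        · exact hl u hu)
      rw [core_wd_cons, List.map_cons, core_wd_cons] at h1
      rw [hl2, mul_smul_comm]
      simpa only [mul_assoc] using h1
    have k3 : s * (ι n * (wd ι l * η)) = ι (a n) * (s * (wd ι l * η)) := by
      have h1 : ∀ l : List V, (∀ x ∈ l, x ∈ W) →
          ι n * (wd ι l * η) = (-1 : ℂ) ^ (l.length + m) • (wd ι l * η * ι n) := by
        intro l hl
        have h2 := core_sign h (v := n) (l ++ List.ofFn f) (by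
          intro u hu
          rw [h.symm]
          rcases List.mem_append.1 hu with hu | hu
          · exact h.wn u (hl u hu) n hn
          · obtain ⟨i, rfl⟩ := List.mem_ofFn.1 hu
            exact h.w'n _ (h.hf i) n hn)
        rw [core_wd_app, List.length_append, List.length_ofFn] at h2
        rw [hη]
        exact h2
      rw [haN n hn, h1 l hl, mul_smul_comm, ← mul_assoc, ← mul_assoc, hRall l hl, mul_smul_comm,
        h1 (l.map a) (hmapW l hl), List.length_map, smul_mul_assoc, smul_comm]
    have k2 : s * (ι y * (wd ι l * η)) = ι (a y) * (s * (wd ι l * η)) := by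
      have h1 : ∀ (y : V), y ∈ W' → ∀ l : List V, ι y * (wd ι l * η) = core_con ι B y l * η := by
        intro y hy l
        rw [← mul_assoc, core_con_eq h y l, add_mul, smul_mul_assoc, mul_assoc (wd ι l), hη,
          core_f_eta h hy, mul_zero, smul_zero, add_zero]
      have h2 := core_con_R haW hiso hRall y l [] (by simp) hl
      rw [core_wd_nil, List.map_nil, core_wd_nil, one_mul, one_mul] at h2
      rw [hl2, mul_smul_comm, h1 y hy l, h1 (a y) (haW' y hy) (l.map a), ← mul_assoc]
      exact h2
    simp only [map_add, add_mul, mul_add, k1, k2, k3]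
  have hfin := core_ann h (d := s * ι (x + y + n) - ι (a (x + y + n)) * s) (by
    intro l hl
    have h1 := hkey l hl
    rw [← hη, mul_assoc, sub_mul, sub_eq_zero]
    simpa only [mul_assoc] using h1)
  exact sub_eq_zero.1 hfin

end Pool.Agent.KSH
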