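import Pool.Agent.KSH.Defs
import Pool.Agent.KSH.Abs
import Pool.Agent.KSH.Cl
import Pool.Agent.KSH.Base

/-!
# KSH-Jel: the rational element of `C⁺(V, Q)` which generates the action of `J`

With a basis `t_i` of `T`, the dual basis `t'_i` for the form `Q` and `A = 2 J + s` (skew on `T`) the element is
`c = Σ (A t_i) t'_i`: `[c, x] = 4 A x` on `T` and `[c, x] = 0` on `T^⊥`.
-/

namespace Pool.Agent.KSH

open Matrix PQK Module TensorProduct Pool.Agent.E3H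

variable {N : ℕ}

private theorem jel_vR (Q : Matrix (Fin N) (Fin N) ℚ) (x : Fin N → ℚ) :
    vecL Q (vR x) = (1 : ℂ) ⊗ₜ[ℚ] gen Q x := lin_rat (gen Q) x

private theorem jel_qvR (B : Matrix (Fin N) (Fin N) ℚ) (x y : Fin N → ℚ) :
    qC B (vR x) (vR y) = ((x ⬝ᵥ (B *ᵥ y) : ℚ) : ℂ) := by
  simp [qC, Matrix.mulVec, dotProduct, toC, vR]

private theorem jel_add (Q : Matrix (Fin N) (Fin N) ℚ) (u x y : Fin N → ℂ) :
    qC Q u (x + y) = qC Q u x + qC Q u y := by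
  unfold qC
  rw [mulVec_add, dotProduct_add]

private theorem jel_smul (Q : Matrix (Fin N) (Fin N) ℚ) (u x : Fin N → ℂ) (a : ℂ) :
    qC Q u (a • x) = a * qC Q u x := by
  unfold qC
  rw [mulVec_smul, dotProduct_smul, smul_eq_mul]

private theorem jel_zero (Q : Matrix (Fin N) (Fin N) ℚ) (u : Fin N → ℂ) :
    qC Q u 0 = 0 := by
  unfold qC
  rw [mulVec_zero, dotProduct_zero]

/-- the commutator with a product of two vectors -/
private theorem jel_comm {Q : Matrix (Fin N) (Fin N) ℚ} (hQ : Qᵀ = Q) (u v x : Fin N → ℂ) :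
    vecL Q u * vecL Q v * vecL Q x - vecL Q x * (vecL Q u * vecL Q v) =
      vecL Q ((2 * qC Q v x) • u - (2 * qC Q u x) • v) := by
  have h1 := cl_rel hQ v x
  have h2 := cl_rel hQ u x
  have h3 : vecL Q u * vecL Q v * vecL Q x - vecL Q x * (vecL Q u * vecL Q v) =
      vecL Q u * (vecL Q v * vecL Q x + vecL Q x * vecL Q v) -
        (vecL Q u * vecL Q x + vecL Q x * vecL Q u) * vecL Q v := by
    noncomm_ring
  rw [h3, h1, h2, map_sub, map_smul, map_smul, Algebra.smul_def, Algebra.smul_def,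
    ← Algebra.commutes (2 * qC Q v x) (vecL Q u)]

/-- the linear map `x ↦ Σ 2 Q(v_i, x) u_i - 2 Q(u_i, x) v_i` -/
private noncomputable def jelR (Q : Matrix (Fin N) (Fin N) ℚ) {n : ℕ} (u v : Fin n → Fin N → ℚ)
    (x : Fin N → ℂ) : Fin N → ℂ :=
  ∑ i, ((2 * qC Q (vR (v i)) x) • vR (u i) - (2 * qC Q (vR (u i)) x) • vR (v i))

private theorem jelR_add (Q : Matrix (Fin N) (Fin N) ℚ) {n : ℕ} (u v : Fin n → Fin N → ℚ)
    (x y : Fin N → ℂ) : jelR Q u v (x + y) = jelR Q u v x + jelR Q u v y := by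
  unfold jelR
  rw [← Finset.sum_add_distrib]
  refine Finset.sum_congr rfl fun i _ => ?_
  rw [jel_add, jel_add]
  module

private theorem jelR_smul (Q : Matrix (Fin N) (Fin N) ℚ) {n : ℕ} (u v : Fin n → Fin N → ℚ)
    (a : ℂ) (x : Fin N → ℂ) : jelR Q u v (a • x) = a • jelR Q u v x := by
  unfold jelR
  rw [Finset.smul_sum]
  refine Finset.sum_congr rfl fun i _ => ?_
  rw [jel_smul, jel_smul]
  module

private theorem jelR_zero (Q : Matrix (Fin N) (Fin N) ℚ) {n : ℕ} (u v : Fin n → Fin N → ℚ) :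
    jelR Q u v 0 = 0 := by
  have h := jelR_smul Q u v 0 0
  rwa [zero_smul, zero_smul] at h

private theorem jelR_rat (Q : Matrix (Fin N) (Fin N) ℚ) {n : ℕ} (u v : Fin n → Fin N → ℚ)
    (x : Fin N → ℚ) : jelR Q u v (vR x) =
      vR (∑ i, ((2 * (v i ⬝ᵥ (Q *ᵥ x))) • u i - (2 * (u i ⬝ᵥ (Q *ᵥ x))) • v i)) := by
  unfold jelR
  ext a
  simp only [jel_qvR, vR, Finset.sum_apply, Pi.sub_apply, Pi.smul_apply, smul_eq_mul]
  push_cast
  rfl

private theorem jel_sum (Q : Matrix (Fin N) (Fin N) ℚ) (hQ : Qᵀ = Q) {n : ℕ}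
    (u v : Fin n → Fin N → ℚ) (x : Fin N → ℂ) :
    (1 : ℂ) ⊗ₜ[ℚ] (∑ i, gen Q (u i) * gen Q (v i)) * vecL Q x -
      vecL Q x * (1 : ℂ) ⊗ₜ[ℚ] (∑ i, gen Q (u i) * gen Q (v i)) = vecL Q (jelR Q u v x) := by
  have h1 : (1 : ℂ) ⊗ₜ[ℚ] (∑ i, gen Q (u i) * gen Q (v i)) =
      ∑ i, vecL Q (vR (u i)) * vecL Q (vR (v i)) := by
    rw [TensorProduct.tmul_sum]
    refine Finset.sum_congr rfl fun i _ => ?_
    rw [jel_vR, jel_vR, Algebra.TensorProduct.tmul_mul_tmul, one_mul]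
  rw [h1, Finset.sum_mul, Finset.mul_sum, ← Finset.sum_sub_distrib]
  unfold jelR
  rw [map_sum]
  refine Finset.sum_congr rfl fun i _ => ?_
  rw [jel_comm hQ]

private theorem jel_star (J : Matrix (Fin N) (Fin N) ℚ) (w : Fin N → ℂ) :
    toC J *ᵥ star w = star (toC J *ᵥ w) := by
  ext i
  rw [Pi.star_apply]
  simp only [Matrix.mulVec, dotProduct, star_sum, star_mul', Pi.star_apply]
  refine Finset.sum_congr rfl fun j _ => ?_
  congr 1
  show ((J i j : ℚ) : ℂ) = star ((J i j : ℚ) : ℂ)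
  rw [Complex.star_def]
  exact (map_ratCast _ _).symm

theorem exists_j {Q J : Matrix (Fin N) (Fin N) ℚ} {w : Fin N → ℂ} {T : Submodule ℚ (Fin N → ℚ)}
    {z : ℂ} {s : ℚ} (hs : s = 0 ∨ s = 1) (hz : z ^ 2 + s * z + 1 = 0) (hIm : 0 < z.im)
    (hK : IsK3Hodge Q w T) (hJ : IsHodgeEnd Q w T J z) :
    ∃ (c : Cliff Q) (θ : ℂ), c ∈ evenPart Q ∧ θ ≠ 0 ∧
      mulC ((1 : ℂ) ⊗ₜ[ℚ] c) (projKS Q w) = mulC (projKS Q w) ((1 : ℂ) ⊗ₜ[ℚ] c) ∧
      (∀ x ∈ eigS T J z, (1 : ℂ) ⊗ₜ[ℚ] c * vecL Q x - vecL Q x * (1 : ℂ) ⊗ₜ[ℚ] c = θ • vecL Q x) ∧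
      (∀ x ∈ eigS T J (star z), (1 : ℂ) ⊗ₜ[ℚ] c * vecL Q x - vecL Q x * (1 : ℂ) ⊗ₜ[ℚ] c = -θ • vecL Q x) ∧
      (∀ x ∈ perpS Q T, (1 : ℂ) ⊗ₜ[ℚ] c * vecL Q x - vecL Q x * (1 : ℂ) ⊗ₜ[ℚ] c = 0) := by
  classical
  have hst := stab hK.tr J hJ.two
  have hq := J_quad hK.tr hJ.two hz
  have hi := J_iso hK hJ (root_mul hz hIm)
  have hQ := hK.symm
  have hsymm : ∀ a b : Fin N → ℚ, a ⬝ᵥ (Q *ᵥ b) = b ⬝ᵥ (Q *ᵥ a) := by
    intro a b
    rw [Matrix.dotProduct_mulVec, dotProduct_comm, ← Matrix.mulVec_transpose, hQ]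
  -- `A = 2 J + s` is skew on `T`
  obtain ⟨A, hA⟩ : ∃ A : Matrix (Fin N) (Fin N) ℚ, A = (2 : ℚ) • J + s • 1 := ⟨_, rfl⟩
  have hAv : ∀ x : Fin N → ℚ, A *ᵥ x = (2 : ℚ) • (J *ᵥ x) + s • x := by
    intro x
    rw [hA, add_mulVec, smul_mulVec, smul_mulVec, one_mulVec]
  have hAC : ∀ x : Fin N → ℂ, toC A *ᵥ x = (2 : ℂ) • (toC J *ᵥ x) + (s : ℂ) • x := by
    intro x
    rw [hA, toC_add, toC_smul, toC_smul, toC_one, add_mulVec, smul_mulVec, smul_mulVec,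
      one_mulVec]
    norm_num
  have hAT : ∀ x ∈ T, A *ᵥ x ∈ T := by
    intro x hx
    rw [hAv]
    exact T.add_mem (T.smul_mem _ (hst x hx)) (T.smul_mem _ hx)
  have hskew : ∀ x ∈ T, ∀ y ∈ T, (A *ᵥ x) ⬝ᵥ (Q *ᵥ y) = -(x ⬝ᵥ (Q *ᵥ (A *ᵥ y))) := by
    intro x hx y hy
    have h1 : (J *ᵥ x) ⬝ᵥ (Q *ᵥ (J *ᵥ (J *ᵥ y) + s • (J *ᵥ y) + y)) = 0 := by
      rw [hq y hy, mulVec_zero, dotProduct_zero]
    rw [mulVec_add, mulVec_add, mulVec_smul, dotProduct_add, dotProduct_add, dotProduct_smul,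
      hi x hx _ (hst y hy), hi x hx y hy, smul_eq_mul] at h1
    rw [hAv, hAv, add_dotProduct, smul_dotProduct, smul_dotProduct, mulVec_add, mulVec_smul,
      mulVec_smul, dotProduct_add, dotProduct_smul, dotProduct_smul]
    simp only [smul_eq_mul]
    linear_combination 2 * h1
  -- dual bases
  have hB : LinearMap.BilinForm.Nondegenerate (bT Q T) := by
    constructor
    · intro x hx
      exact Subtype.ext (nondeg hK x.2 fun y hy => hx ⟨y, hy⟩)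
    · intro x hx
      refine Subtype.ext (nondeg hK x.2 fun y hy => ?_)
      rw [hsymm]
      exact hx ⟨y, hy⟩
  let b := Module.finBasis ℚ T
  let d := LinearMap.BilinForm.dualBasis (bT Q T) hB b
  have hd1 : ∀ x : T, ∑ i, bT Q T x (b i) • d i = x := by
    intro x
    conv_rhs => rw [← d.sum_repr x]
    refine Finset.sum_congr rfl fun i _ => ?_
    rw [LinearMap.BilinForm.dualBasis_repr_apply]
  have hb1 : ∀ x : T, ∑ i, bT Q T (d i) x • b i = x := by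
    intro x
    conv_rhs => rw [← b.sum_repr x]
    refine Finset.sum_congr rfl fun i _ => ?_
    congr 1
    conv_lhs => rw [← b.sum_repr x]
    rw [map_sum]
    rw [Finset.sum_eq_single i]
    · rw [map_smul, LinearMap.BilinForm.apply_dualBasis_left, if_pos rfl, smul_eq_mul, mul_one]
    · intro j _ hj
      rw [map_smul, LinearMap.BilinForm.apply_dualBasis_left, if_neg hj, smul_zero]
    · intro h
      exact absurd (Finset.mem_univ i) h
  obtain ⟨u, hu⟩ : ∃ u : Fin (finrank ℚ T) → Fin N → ℚ, ∀ i, u i = A *ᵥ ((b i : T) : Fin N → ℚ) :=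
    ⟨_, fun i => rfl⟩
  obtain ⟨v, hv⟩ : ∃ v : Fin (finrank ℚ T) → Fin N → ℚ, ∀ i, v i = ((d i : T) : Fin N → ℚ) :=
    ⟨_, fun i => rfl⟩
  have huT : ∀ i, u i ∈ T := fun i => by
    rw [hu]
    exact hAT _ (b i).2
  have hvT : ∀ i, v i ∈ T := fun i => by
    rw [hv]
    exact (d i).2
  -- the rational computation
  have hR1 : ∀ x ∈ T, ∑ i, ((2 * (v i ⬝ᵥ (Q *ᵥ x))) • u i - (2 * (u i ⬝ᵥ (Q *ᵥ x))) • v i) =
      (4 : ℚ) • (A *ᵥ x) := by
    intro x hx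
    have h1 : ∑ i, (v i ⬝ᵥ (Q *ᵥ x)) • u i = A *ᵥ x := by
      have h2 := congrArg (fun t : T => A *ᵥ (t : Fin N → ℚ)) (hb1 ⟨x, hx⟩)
      simp only at h2
      rw [← h2]
      rw [Submodule.coe_sum, Matrix.mulVec_sum]
      refine Finset.sum_congr rfl fun i _ => ?_
      rw [Submodule.coe_smul, mulVec_smul, hu, hv]
      rfl
    have h3 : ∑ i, (u i ⬝ᵥ (Q *ᵥ x)) • v i = -(A *ᵥ x) := by
      have h2 := congrArg (fun t : T => (t : Fin N → ℚ)) (hd1 ⟨A *ᵥ x, hAT x hx⟩)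
      simp only at h2
      rw [← h2, Submodule.coe_sum, ← Finset.sum_neg_distrib]
      refine Finset.sum_congr rfl fun i _ => ?_
      rw [Submodule.coe_smul, hu, hv, hskew _ (b i).2 x hx, hsymm, neg_smul]
      rfl
    have h4 : ∀ i, (2 * (v i ⬝ᵥ (Q *ᵥ x))) • u i - (2 * (u i ⬝ᵥ (Q *ᵥ x))) • v i =
        (2 : ℚ) • ((v i ⬝ᵥ (Q *ᵥ x)) • u i) - (2 : ℚ) • ((u i ⬝ᵥ (Q *ᵥ x)) • v i) := by
      intro i
      rw [smul_smul, smul_smul]
    rw [Finset.sum_congr rfl fun i _ => h4 i, Finset.sum_sub_distrib, ← Finset.smul_sum,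
      ← Finset.smul_sum, h1, h3]
    module
  have hR2 : ∀ x : Fin N → ℚ, (∀ t ∈ T, x ⬝ᵥ (Q *ᵥ t) = 0) →
      ∑ i, ((2 * (v i ⬝ᵥ (Q *ᵥ x))) • u i - (2 * (u i ⬝ᵥ (Q *ᵥ x))) • v i) = 0 := by
    intro x hx
    refine Finset.sum_eq_zero fun i _ => ?_
    rw [hsymm (v i) x, hsymm (u i) x, hx _ (hvT i), hx _ (huT i)]
    simp
  -- the complex computation
  have hC1 : ∀ x ∈ spanC T, jelR Q u v x = (4 : ℂ) • (toC A *ᵥ x) := by
    intro x hx
    unfold spanC at hx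
    induction hx using Submodule.span_induction with
    | mem x hx =>
      obtain ⟨y, hy, rfl⟩ := hx
      change jelR Q u v (vR y) = (4 : ℂ) • (toC A *ᵥ vR y)
      rw [jelR_rat, hR1 y hy, ← vR_mulVec, vR_smul]
      norm_num
    | zero => rw [jelR_zero, mulVec_zero, smul_zero]
    | add x y _ _ h1 h2 => rw [jelR_add, h1, h2, mulVec_add, smul_add]
    | smul c x _ h1 => rw [jelR_smul, h1, mulVec_smul, smul_comm]
  have hC2 : ∀ x ∈ perpS Q T, jelR Q u v x = 0 := by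
    intro x hx
    unfold perpS at hx
    induction hx using Submodule.span_induction with
    | mem x hx =>
      obtain ⟨y, hy, rfl⟩ := hx
      change jelR Q u v (vR y) = 0
      rw [jelR_rat, hR2 y hy, vR_zero]
    | zero => rw [jelR_zero]
    | add x y _ _ h1 h2 => rw [jelR_add, h1, h2, add_zero]
    | smul c x _ h1 => rw [jelR_smul, h1, smul_zero]
  have hsum := jel_sum Q hQ u v
  have hzz : z + star z = -s := by
    have h1 := root_sum hz hIm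
    exact h1
  have hW : ∀ x ∈ eigS T J z,
      (1 : ℂ) ⊗ₜ[ℚ] (∑ i, gen Q (u i) * gen Q (v i)) * vecL Q x -
        vecL Q x * (1 : ℂ) ⊗ₜ[ℚ] (∑ i, gen Q (u i) * gen Q (v i)) =
      (4 * (2 * z + s)) • vecL Q x := by
    rintro x ⟨hx, hx2⟩
    rw [hsum, hC1 x hx, hAC]
    unfold appC at hx2
    rw [hx2, ← map_smul]
    congr 1
    module
  have hW' : ∀ x ∈ eigS T J (star z),
      (1 : ℂ) ⊗ₜ[ℚ] (∑ i, gen Q (u i) * gen Q (v i)) * vecL Q x -
        vecL Q x * (1 : ℂ) ⊗ₜ[ℚ] (∑ i, gen Q (u i) * gen Q (v i)) =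
      -(4 * (2 * z + s)) • vecL Q x := by
    rintro x ⟨hx, hx2⟩
    rw [hsum, hC1 x hx, hAC]
    unfold appC at hx2
    rw [hx2, ← map_smul]
    have h1 : star z = -s - z := by linear_combination hzz
    rw [h1]
    congr 1
    module
  refine ⟨∑ i, gen Q (u i) * gen Q (v i), 4 * (2 * z + s), ?_, ?_, ?_, hW, hW', ?_⟩
  · show (∑ i, gen Q (u i) * gen Q (v i)) ∈ CliffordAlgebra.even (qf Q)
    refine Subalgebra.sum_mem _ fun i _ => ?_
    exact CliffordAlgebra.ι_mul_ι_mem_evenOdd_zero (qf Q) (u i) (v i)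
  · intro h0
    have h1 := congrArg Complex.im h0
    simp at h1
    exact hIm.ne' h1
  · have hw : w ∈ eigS T J z := ⟨hK.tr.1, hJ.two⟩
    have hw' : star w ∈ eigS T J (star z) := by
      refine ⟨star_mem_spanC hK.tr.1, ?_⟩
      unfold appC
      rw [jel_star, hJ.two]
      exact star_smul z w
    have h1 := hW w hw
    have h2 := hW' (star w) hw'
    unfold projKS
    rw [← vecL_apply, ← vecL_apply]
    unfold mulC
    rw [mul_smul_comm, smul_mul_assoc]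
    congr 1
    rw [sub_eq_iff_eq_add] at h1 h2
    generalize 4 * (2 * z + (s : ℂ)) = θ at h1 h2
    rw [← mul_assoc, h1, add_mul, mul_assoc (vecL Q w), h2, mul_add, smul_mul_assoc,
      mul_smul_comm, neg_smul, mul_assoc]
    abel
  · intro x hx
    rw [hsum, hC2 x hx, map_zero]

end Pool.Agent.KSH
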