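import Pool.Agent.KSH.Core
import Pool.Agent.KSH.Jel

/-!
# KSH-Main: assembly
-/

namespace Pool.Agent.KSH

open Matrix PQK Module TensorProduct Pool.Agent.E3H

variable {N : ℕ}

private theorem main_wd (Q : Matrix (Fin N) (Fin N) ℚ) (l : List (Fin N → ℂ)) :
    wdC Q l = wd (vecL Q) l := by
  unfold wdC wd
  congr 1

private theorem main_perp {Q : Matrix (Fin N) (Fin N) ℚ} {T : Submodule ℚ (Fin N → ℚ)}
    {a : (Fin N → ℂ) →ₗ[ℂ] (Fin N → ℂ)} (ha : ∀ x : Fin N → ℚ, (∀ t ∈ T, x ⬝ᵥ (Q *ᵥ t) = 0) →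
    a (fun i => (x i : ℂ)) = fun i => (x i : ℂ)) : ∀ x ∈ perpS Q T, a x = x := by
  intro x hx
  unfold perpS at hx
  induction hx using Submodule.span_induction with
  | mem x hx =>
    obtain ⟨y, hy, rfl⟩ := hx
    exact ha y hy
  | zero => exact map_zero a
  | add x y _ _ hx hy => rw [map_add, hx, hy]
  | smul c x _ hx => rw [map_smul, hx]

/-- the Kuga-Satake correspondence is invariant -/
theorem ks_inv {Q J : Matrix (Fin N) (Fin N) ℚ} {w : Fin N → ℂ} {T : Submodule ℚ (Fin N → ℚ)}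
    {z : ℂ} {s : ℚ} {m : ℕ} (hs : s = 0 ∨ s = 1) (hz : z ^ 2 + s * z + 1 = 0) (hIm : 0 < z.im)
    (hK : IsK3Hodge Q w T) (hJ : IsHodgeEnd Q w T J z) (hdim : finrank ℚ T = 2 * m)
    {a₀ : (Fin N → ℂ) → (Fin N → ℂ)} {σ : CliffC Q}
    (hM : IsMot Q w T J z a₀ σ) : KSInv Q a₀ σ := by
  obtain ⟨e, f, h⟩ := exists_spl hs hz hIm hK hJ hdim
  obtain ⟨c, θ, hce, hθ, hcw, hj, hj', hjn⟩ := exists_j hs hz hIm hK hJ
  obtain ⟨μ, hμ, hpol⟩ := hM.pol
  obtain ⟨ν, hrel⟩ := hM.rel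
  obtain ⟨a, ha⟩ : ∃ a : (Fin N → ℂ) →ₗ[ℂ] (Fin N → ℂ), ∀ x, a₀ x = a x :=
    ⟨hM.lin.mk' a₀, fun x => rfl⟩
  obtain rfl : a₀ = a := funext ha
  have hsj : σ * (1 : ℂ) ⊗ₜ[ℚ] c = (1 : ℂ) ⊗ₜ[ℚ] c * σ := hM.left c hce hcw
  have hss : revC Q σ * σ = algebraMap ℂ (CliffC Q) μ := by
    have h1 := hpol 1 1
    change revC Q (σ * 1) * (σ * 1) = μ • (revC Q 1 * 1) at h1
    rw [mul_one, mul_one, rev_oneL] at h1
    rw [h1, Algebra.algebraMap_eq_smul_one]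
  have haE : ∀ u : ℂ, ∀ x ∈ eigS T J u, a x ∈ eigS T J u := by
    rintro u x ⟨hx, hx'⟩
    obtain ⟨h1, h2⟩ := hM.comm x hx
    refine ⟨h1, ?_⟩
    rw [← h2, hx', map_smul]
  have hR : ∀ l : List (Fin N → ℂ), (2 * l.length ≤ m ∨ l.length = m) →
      (∀ x ∈ l, x ∈ eigS T J z) →
      σ * wd (vecL Q) l * eta (vecL Q) f = ν • (wd (vecL Q) (l.map a) * eta (vecL Q) f) := by
    intro l hl hlW
    have hf' : ∀ x ∈ List.ofFn f, IsEig T J (star z) x := by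
      intro x hx
      obtain ⟨i, rfl⟩ := List.mem_ofFn.1 hx
      exact h.hf i
    have h1 := hrel l (List.ofFn f) (by rw [hdim]; omega) (by rw [hdim, List.length_ofFn])
      (fun x hx => hlW x hx) hf'
    unfold mulC at h1
    rw [main_wd, main_wd, main_wd, ← mul_assoc] at h1
    exact h1
  have hnt : Nontrivial (CliffC Q) := by
    have : Invertible (2 : ℚ) := invertibleOfNonzero two_ne_zero
    have h0 : Nontrivial (CliffordAlgebra (qf Q)) := inferInstance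
    have h1 : Nontrivial (ℂ ⊗[ℚ] CliffordAlgebra (qf Q)) :=
      (Module.FaithfullyFlat.nontrivial_tensorProduct_iff_right (R := ℚ) (M := ℂ)).2 inferInstance
    exact h1
  have hcore := core h (haE z) (haE (star z)) (main_perp hM.fix) (by
    intro x y
    simp only [hM.iso]) hθ hj hj' hjn hsj hμ hss hR
  intro v v₀ x
  unfold mulC
  rw [← vecL_apply, ← vecL_apply, ← vecL_apply, ← mul_assoc, ← mul_assoc, hcore]
  simp only [mul_assoc]

/-- the dimension of `T` is even -/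
theorem even_dim {Q J : Matrix (Fin N) (Fin N) ℚ} {w : Fin N → ℂ} {T : Submodule ℚ (Fin N → ℚ)}
    {z : ℂ} {s : ℚ} (hs : s = 0 ∨ s = 1) (hz : z ^ 2 + s * z + 1 = 0) (hIm : 0 < z.im)
    (hK : IsK3Hodge Q w T) (hJ : IsHodgeEnd Q w T J z) : ∃ m : ℕ, finrank ℚ T = 2 * m := by
  obtain ⟨E, hEb, hEz⟩ := exists_E hK hJ hz (root_mul hz hIm)
  by_contra hodd
  have hodd' : Odd (finrank ℚ T) := by
    rcases Nat.even_or_odd (finrank ℚ T) with h | h
    · obtain ⟨k, hk⟩ := h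
      exact absurd ⟨k, by omega⟩ hodd
    · exact h
  obtain ⟨f, hf⟩ : ∃ f : T →ₗ[ℚ] T, f = (2 : ℚ) • E.z + s • LinearMap.id := ⟨_, rfl⟩
  have hff : f * f = (s ^ 2 - 4) • (1 : T →ₗ[ℚ] T) := by
    apply LinearMap.ext
    intro t
    have h1 := E.zz t
    have h2 : E.z (E.z t) = -(s • E.z t) - t := by
      rw [← sub_eq_zero, ← h1]
      abel
    rw [hf]
    simp only [Module.End.mul_apply, LinearMap.add_apply, LinearMap.smul_apply, LinearMap.id_apply,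
      map_add, map_smul, h2, Module.End.one_apply]
    module
  have hdet := congrArg LinearMap.det hff
  rw [map_mul, LinearMap.det_smul, map_one, mul_one] at hdet
  have hneg : s ^ 2 - 4 < 0 := by
    rcases hs with rfl | rfl <;> norm_num
  have h3 : (s ^ 2 - 4) ^ finrank ℚ T < 0 := hodd'.pow_neg hneg
  rw [← hdet] at h3
  exact absurd h3 (not_lt.2 (mul_self_nonneg _))

/-- the final theorem of the project -/
theorem ks_main {Q J : Matrix (Fin N) (Fin N) ℚ} {w : Fin N → ℂ} {T : Submodule ℚ (Fin N → ℚ)}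
    {z : ℂ} {s : ℚ} (hs : s = 0 ∨ s = 1) (hz : z ^ 2 + s * z + 1 = 0) (hIm : 0 < z.im)
    (hK : IsK3Hodge Q w T) (hJ : IsHodgeEnd Q w T J z)
    {a : (Fin N → ℂ) → (Fin N → ℂ)} {σ : CliffC Q} (hM : IsMot Q w T J z a σ) : KSInv Q a σ := by
  obtain ⟨m, hm⟩ := even_dim hs hz hIm hK hJ
  exact ks_inv hs hz hIm hK hJ hm hM

end Pool.Agent.KSH
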